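import Pool.Agent.Helper302.Univ.Inst

set_option autoImplicit false

namespace Pool.Agent.Helper302.Univ

open Set Filter Topology

noncomputable section

theorem hor_avoid {α : ℕ → Bool} {x y : ℝ}
    (hav : ∀ t : ℝ, 0 ≤ t → ¬ (pl (xs α) t = x ∧ pl ys t = y)) (i : ℕ) {a b d : ℕ}
    (ha : vv α i = a) (hb : vv α (i + 1) = b) (hd : dep i = d) {l r : ℝ}
    (hlr : Icc l r ⊆ uIcc (a : ℝ) b) : ¬ (y = 1 / (d : ℝ) ∧ x ∈ Icc l r) := by
  rintro ⟨h1, h2⟩
  obtain ⟨t, ht, htx, hty⟩ := hor_mem α i (x := x) (by rw [ha, hb]; exact hlr h2)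
  exact hav t ht ⟨htx, by rw [hty, hd, h1]⟩

theorem ver_avoid {α : ℕ → Bool} {x y : ℝ}
    (hav : ∀ t : ℝ, 0 ≤ t → ¬ (pl (xs α) t = x ∧ pl ys t = y)) (i : ℕ) {b d d' : ℕ}
    (hb : vv α (i + 1) = b) (hd : dep i = d) (hd' : dep (i + 1) = d') {l r : ℝ}
    (hlr : Icc l r ⊆ uIcc (1 / (d : ℝ)) (1 / (d' : ℝ))) : ¬ (x = (b : ℝ) ∧ y ∈ Icc l r) := by
  rintro ⟨h1, h2⟩
  obtain ⟨t, ht, htx, hty⟩ := ver_mem α i (y := y) (by rw [hd, hd']; exact hlr h2)
  exact hav t ht ⟨by rw [htx, hb, h1], hty⟩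

theorem blocked_aux (α : ℕ → Bool) (X Y : ℝ → ℝ) (hX : ContinuousOn X (Icc 0 10))
    (hY : ContinuousOn Y (Icc 0 10))
    (hXs : ∀ s ∈ Icc (0 : ℝ) 10, |X s - s| < 1/4) (hYs : ∀ s ∈ Icc (0 : ℝ) 10, Y s < 1/4)
    (hpos : ∀ s ∈ Icc (1/2 : ℝ) (19/2), 0 < Y s)
    (hav : ∀ s ∈ Icc (0 : ℝ) 10, ∀ t : ℝ, 0 ≤ t → ¬ (pl (xs α) t = X s ∧ pl ys t = Y s)) :
    False := by
  refine stuck X Y hX hY hXs hYs hpos ?_ ?_ ?_ ?_ ?_ ?_ ?_ ?_ ?_ ?_ ?_ ?_ <;>
    intro k s hs <;> obtain ⟨s0, s1, s2, s6, s7, s8, s9⟩ := strand α k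
  · have := hor_avoid (hav s hs) (10 * k) s0.2.1 s0.2.2 s0.1 (l := 0) (r := 4)
      (by push_cast; exact Icc_subset_uIcc)
    push_cast at this; exact this
  · have := hor_avoid (hav s hs) (10 * k + 9) s9.2.1 s9.2.2 s9.1 (l := 0) (r := 3)
      (by push_cast; exact Icc_subset_uIcc')
    push_cast at this; exact this
  · have := hor_avoid (hav s hs) (10 * k + 8) s8.2.1 s8.2.2 s8.1 (l := 1) (r := 3)
      (by push_cast; exact Icc_subset_uIcc)
    push_cast at this; exact this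
  · have := hor_avoid (hav s hs) (10 * k + 1) s1.2.1 s1.2.2 s1.1 (l := 2) (r := 4)
      (by push_cast; exact Icc_subset_uIcc')
    push_cast at this; exact this
  · have := hor_avoid (hav s hs) (10 * k + 2) s2.2.1 s2.2.2 s2.1 (l := 2) (r := 7)
      (by push_cast; exact Icc_subset_uIcc)
    push_cast at this; exact this
  · have := hor_avoid (hav s hs) (10 * k + 7) s7.2.1 s7.2.2 s7.1 (l := 1) (r := 8)
      (by push_cast; exact Icc_subset_uIcc')
    push_cast at this; exact this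
  · have := hor_avoid (hav s hs) (10 * k + 6) s6.2.1 s6.2.2 s6.1 (l := 6) (r := 8)
      (by push_cast; exact Icc_subset_uIcc)
    push_cast at this; exact this
  · have := ver_avoid (hav s hs) (10 * k) s0.2.2 s0.1 s1.1 (l := 1/(10*k+4))
      (r := 1/(10*k+1)) (by push_cast; exact Icc_subset_uIcc')
    push_cast at this; exact this
  · have := ver_avoid (hav s hs) (10 * k + 8) s8.2.2 s8.1 s9.1 (l := 1/(10*k+3))
      (r := 1/(10*k+2)) (by push_cast; exact Icc_subset_uIcc)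
    push_cast at this; exact this
  · have := ver_avoid (hav s hs) (10 * k + 1) s1.2.2 s1.1 s2.1 (l := 1/(10*k+5))
      (r := 1/(10*k+4)) (by push_cast; exact Icc_subset_uIcc')
    push_cast at this; exact this
  · have := ver_avoid (hav s hs) (10 * k + 7) s7.2.2 s7.1 s8.1 (l := 1/(10*k+10))
      (r := 1/(10*k+3)) (by push_cast; exact Icc_subset_uIcc)
    push_cast at this; exact this
  · have := ver_avoid (hav s hs) (10 * k + 6) s6.2.2 s6.1 s7.1 (l := 1/(10*k+17))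
      (r := 1/(10*k+10)) (by push_cast; exact Icc_subset_uIcc)
    push_cast at this; exact this

theorem blocked (α : ℕ → Bool) {e : ℝ → P} (he : ContinuousOn e (Icc 0 10))
    (hd : ∀ s ∈ Icc (0 : ℝ) 10, dist (e s) (seg s) < 1/4) :
    ∃ s ∈ Icc (0 : ℝ) 10, e s ∈ KK seg (ray α) (rayM α) := by
  by_contra hcon
  push Not at hcon
  have cX : ContinuousOn (fun s => e s 0) (Icc 0 10) :=
    (PiLp.continuous_apply 2 _ 0).comp_continuousOn he
  have cY : ContinuousOn (fun s => e s 1) (Icc 0 10) :=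
    (PiLp.continuous_apply 2 _ 1).comp_continuousOn he
  have hXs : ∀ s ∈ Icc (0 : ℝ) 10, |e s 0 - s| < 1/4 := fun s hs =>
    lt_of_le_of_lt (coord_le (e s) (seg s) 0) (hd s hs)
  have hYs : ∀ s ∈ Icc (0 : ℝ) 10, |e s 1| < 1/4 := fun s hs => by
    have := lt_of_le_of_lt (coord_le (e s) (seg s) 1) (hd s hs)
    rwa [seg_one, sub_zero] at this
  have hsub : Icc (1/2 : ℝ) (19/2) ⊆ Icc 0 10 := Icc_subset_Icc (by norm_num) (by norm_num)
  have hne : ∀ s ∈ Icc (1/2 : ℝ) (19/2), e s 1 ≠ 0 := by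
    intro s hs h
    have h1 := abs_lt.mp (hXs s (hsub hs))
    refine hcon s (hsub hs) (Or.inl (Or.inl ⟨e s 0, ⟨by linarith [hs.1], by linarith [hs.2]⟩, ?_⟩))
    ext i
    fin_cases i
    · rfl
    · exact h.symm
  have hcon' : IsPreconnected (Icc (1/2 : ℝ) (19/2)) := isPreconnected_Icc
  have hsign : (∀ s ∈ Icc (1/2 : ℝ) (19/2), 0 < e s 1) ∨ (∀ s ∈ Icc (1/2 : ℝ) (19/2), e s 1 < 0) := by
    by_contra hh
    push Not at hh
    obtain ⟨⟨a, ha, ha'⟩, ⟨b, hb, hb'⟩⟩ := hh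
    obtain ⟨c, hc, hc'⟩ := hcon'.intermediate_value ha hb (cY.mono hsub) ⟨ha', hb'⟩
    exact hne c hc hc'
  rcases hsign with h | h
  · refine blocked_aux α (fun s => e s 0) (fun s => e s 1) cX cY hXs
      (fun s hs => lt_of_abs_lt (hYs s hs)) h ?_
    rintro s hs t ht ⟨h1, h2⟩
    refine hcon s hs (Or.inl (Or.inr ⟨t, ht, ?_⟩))
    ext i
    fin_cases i
    · exact h1
    · exact h2
  · refine blocked_aux α (fun s => e s 0) (fun s => - e s 1) cX cY.neg hXs
      (fun s hs => by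
        have := (abs_lt.mp (hYs s hs)).1
        show - e s 1 < 1/4
        linarith) (fun s hs => by
        have := h s hs
        show 0 < - e s 1
        linarith) ?_
    rintro s hs t ht ⟨h1, h2⟩
    refine hcon s hs (Or.inr ⟨t, ht, ?_⟩)
    ext i
    fin_cases i
    · exact h1
    · show - pl ys t = e s 1
      have h3 : pl ys t = - e s 1 := h2
      linarith

theorem pl_xs_piece (α : ℕ → Bool) (n : ℕ) {t : ℝ} (h : 2 * (n : ℝ) ≤ t) (h' : t ≤ 2 * n + 2) :
    pl (xs α) t = vv α n + ((vv α (n + 1) : ℝ) - vv α n) * min (t - 2 * n) 1 := by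
  rcases le_total t (2 * n + 1) with h1 | h1
  · rw [pl_xs_hor α n h h1, min_eq_left (by linarith)]
  · rw [pl_xs_ver α n h1 h', min_eq_right (by linarith)]; ring

theorem zig (α : ℕ → Bool) (i : ℕ) :
    vv α (2 * i) + 2 ≤ vv α (2 * i + 1) ∧ vv α (2 * i + 2) + 2 ≤ vv α (2 * i + 1) := by
  obtain ⟨a, h⟩ := tabR α (2 * i)
  obtain ⟨b, h'⟩ := tabR α (2 * i + 1)
  rw [show 2 * i + 1 + 1 = 2 * i + 2 by ring] at h'
  omega

theorem mono_piece (α : ℕ → Bool) (i : ℕ) :
    MonotoneOn (pl (xs α)) (Icc (4 * (i : ℝ)) (4 * i + 2)) := by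
  intro a ha b hb hab
  have h := (zig α i).1
  have h' : (vv α (2 * i) : ℝ) ≤ vv α (2 * i + 1) := by exact_mod_cast (by omega)
  rw [pl_xs_piece α (2 * i) (t := a) (by push_cast; linarith [ha.1]) (by push_cast; linarith [ha.2]),
    pl_xs_piece α (2 * i) (t := b) (by push_cast; linarith [hb.1]) (by push_cast; linarith [hb.2])]
  have hm : min (a - 2 * ((2 * i : ℕ) : ℝ)) 1 ≤ min (b - 2 * ((2 * i : ℕ) : ℝ)) 1 :=
    min_le_min_right _ (by linarith)
  nlinarith

theorem anti_piece (α : ℕ → Bool) (i : ℕ) :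
    AntitoneOn (pl (xs α)) (Icc (4 * (i : ℝ) + 2) (4 * i + 4)) := by
  intro a ha b hb hab
  have h := (zig α i).2
  have h' : (vv α (2 * i + 1 + 1) : ℝ) ≤ vv α (2 * i + 1) := by
    rw [show 2 * i + 1 + 1 = 2 * i + 2 by ring]
    exact_mod_cast (by omega)
  rw [pl_xs_piece α (2 * i + 1) (t := a) (by push_cast; linarith [ha.1])
      (by push_cast; linarith [ha.2]),
    pl_xs_piece α (2 * i + 1) (t := b) (by push_cast; linarith [hb.1])
      (by push_cast; linarith [hb.2])]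
  have hm : min (a - 2 * ((2 * i + 1 : ℕ) : ℝ)) 1 ≤ min (b - 2 * ((2 * i + 1 : ℕ) : ℝ)) 1 :=
    min_le_min_right _ (by linarith)
  nlinarith

theorem match_ray (α β : ℕ → Bool) {τ : ℝ → ℝ} (hτ : ContinuousOn τ (Ici 0))
    (hm : StrictMonoOn τ (Ici 0)) (h0 : ∀ s, 0 ≤ s → 0 ≤ τ s)
    (hd : ∀ s, 0 ≤ s → |pl (xs β) s - pl (xs α) (τ s)| < 1/4) :
    ∃ M : ℕ, ∀ i, vv β (1 + i) = vv α (M + i) :=
  match_abs (zig β) (zig α) (continuous_pl _) (continuous_pl _)
    (fun i => pl_xs_two β i) (fun i => pl_xs_two α i) (mono_piece β) (anti_piece β)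
    (mono_piece α) (anti_piece α) hτ hm h0 hd

theorem class_countable (α : ℕ → Bool) (N M : ℕ) :
    {β : ℕ → Bool | ∀ i, vv β (N + i) = vv α (M + i)}.Countable := by
  refine Set.countable_of_injective_of_countable_image
    (f := fun (β : ℕ → Bool) (m : Fin N) => β m) ?_ (Set.to_countable _)
  intro β hβ γ hγ h
  funext m
  by_cases hm : m < N
  · exact congrFun h ⟨m, hm⟩
  · have h1 : 10 * (2 * m + 1) + 5 = N + (10 * (2 * m + 1) + 5 - N) := by omega
    have e1 := hβ (10 * (2 * m + 1) + 5 - N)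
    have e2 := hγ (10 * (2 * m + 1) + 5 - N)
    rw [← h1] at e1 e2
    have e3 := e1.trans e2.symm
    rw [vv_five, vv_five] at e3
    have b1 : bit β (2 * m + 1) = β m := by
      unfold bit; rw [if_neg (by omega), show (2 * m + 1) / 2 = m by omega]
    have b2 : bit γ (2 * m + 1) = γ m := by
      unfold bit; rw [if_neg (by omega), show (2 * m + 1) / 2 = m by omega]
    rw [b1, b2] at e3
    cases hb : β m with
    | true =>
      cases hg : γ m with
      | true => rfl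
      | false => rw [hb, hg] at e3; exact absurd e3 (by decide)
    | false =>
      cases hg : γ m with
      | true => rw [hb, hg] at e3; exact absurd e3 (by decide)
      | false => rfl

end

end Pool.Agent.Helper302.Univ
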