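import Pool.Agent.Helper302.Univ.Defs

set_option autoImplicit false

namespace Pool.Agent.Helper302.Univ

open Set Filter Topology

theorem Arm.isCompact_tail {J : Set P} {r : ℝ → P} (hJ : IsCompact J) (h : Arm J r) {N : ℝ}
    (hN : 0 ≤ N) : IsCompact (J ∪ r '' Ici N) := by
  refine isCompact_of_finite_subcover ?_
  intro ι U hU hcov
  obtain ⟨t, ht⟩ := hJ.elim_finite_subcover U hU (subset_union_left.trans hcov)
  obtain ⟨M, hM0, hM⟩ := h.lim (⋃ i ∈ t, U i) (isOpen_biUnion fun i _ => hU i) ht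
  have hc : IsCompact (r '' Icc N M) := isCompact_Icc.image h.cont
  obtain ⟨t', ht'⟩ := hc.elim_finite_subcover U hU
    ((image_mono Icc_subset_Ici_self).trans (subset_union_right.trans hcov))
  classical
  refine ⟨t ∪ t', ?_⟩
  rintro p (hp | ⟨s, hs, rfl⟩)
  · obtain ⟨i, hi, hpi⟩ := mem_iUnion₂.mp (ht hp)
    exact mem_iUnion₂.mpr ⟨i, Finset.mem_union_left _ hi, hpi⟩
  · rcases le_total s M with hsM | hsM
    · obtain ⟨i, hi, hpi⟩ := mem_iUnion₂.mp (ht' ⟨s, ⟨hs, hsM⟩, rfl⟩)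
      exact mem_iUnion₂.mpr ⟨i, Finset.mem_union_right _ hi, hpi⟩
    · obtain ⟨i, hi, hpi⟩ := mem_iUnion₂.mp (hM s hsM)
      exact mem_iUnion₂.mpr ⟨i, Finset.mem_union_left _ hi, hpi⟩

theorem Arm.isPreconnected {J : Set P} {r : ℝ → P} (h : Arm J r) :
    IsPreconnected (J ∪ r '' Ici 0) := by
  have h1 : IsPreconnected (r '' Ici 0) := isPreconnected_Ici.image _ h.cont.continuousOn
  refine h1.subset_closure subset_union_right ?_
  refine union_subset ?_ subset_closure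
  intro p hp
  rw [mem_closure_iff]
  intro O hO hpO
  obtain ⟨t, _, ht0, ht⟩ := h.clus p hp O hO hpO 0
  exact ⟨r t, ht, t, ht0, rfl⟩

theorem Dbl.j_ne {j rp rm : ℝ → P} (D : Dbl j rp rm) : j 0 ≠ j 10 := by
  intro h
  have := D.ji ⟨le_rfl, by norm_num⟩ ⟨by norm_num, le_rfl⟩ h
  norm_num at this

theorem Dbl.isCompact_J {j rp rm : ℝ → P} (D : Dbl j rp rm) : IsCompact (j '' Icc 0 10) :=
  isCompact_Icc.image D.jc

theorem Dbl.isPreconnected_J {j rp rm : ℝ → P} (D : Dbl j rp rm) :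
    IsPreconnected (j '' Icc 0 10) :=
  isPreconnected_Icc.image _ D.jc.continuousOn

theorem KK_eq (j rp rm : ℝ → P) :
    KK j rp rm = (j '' Icc 0 10 ∪ rp '' Ici 0) ∪ (j '' Icc 0 10 ∪ rm '' Ici 0) := by
  unfold KK
  ext p
  simp only [mem_union]
  tauto

theorem Dbl.isCompact {j rp rm : ℝ → P} (D : Dbl j rp rm) : IsCompact (KK j rp rm) := by
  rw [KK_eq]
  exact (D.p.isCompact_tail D.isCompact_J le_rfl).union (D.m.isCompact_tail D.isCompact_J le_rfl)

theorem Dbl.isConnected {j rp rm : ℝ → P} (D : Dbl j rp rm) : IsConnected (KK j rp rm) := by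
  have h0 : j 0 ∈ j '' Icc 0 10 := ⟨0, ⟨le_rfl, by norm_num⟩, rfl⟩
  rw [KK_eq]
  refine ⟨⟨j 0, Or.inl (Or.inl h0)⟩, ?_⟩
  exact D.p.isPreconnected.union (j 0) (Or.inl h0) (Or.inl h0) D.m.isPreconnected

end Pool.Agent.Helper302.Univ
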