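import Pool.Agent.Helper302.Univ.Geo
import Pool.Agent.Helper302.Univ.Tail

set_option autoImplicit false

namespace Pool.Agent.Helper302.Univ

open Set Filter Topology

theorem chain_of_map {K : Set P} (hK : IsCompact K) (f : P → ℝ) (hf : ContinuousOn f K)
    {lo hi : ℝ} (hlo : lo < hi) (himg : f '' K = Icc lo hi) {ε : ℝ} (hε : 0 < ε)
    (hfib : ∀ p ∈ K, ∀ q ∈ K, f p = f q → dist p q ≤ ε / 2) :
    ∃ n : ℕ, ∃ U : Fin n → Set P,
      (∀ i, IsOpen (U i)) ∧ K ⊆ ⋃ i, U i ∧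
      (∀ i j : Fin n, ((K ∩ U i ∩ U j).Nonempty ↔
          ((i : ℕ) ≤ (j : ℕ) + 1 ∧ (j : ℕ) ≤ (i : ℕ) + 1))) ∧
      ∀ i, Metric.diam (K ∩ U i) < ε := by
  -- Step 1
  have step1 : ∃ w : ℝ, 0 < w ∧ ∀ p ∈ K, ∀ q ∈ K, |f p - f q| ≤ 2 * w → dist p q ≤ 3 * ε / 4 := by
    set S : Set (P × P) := (K ×ˢ K) ∩ {pq | 3 * ε / 4 ≤ dist pq.1 pq.2} with hS
    have hScomp : IsCompact S :=
      (hK.prod hK).inter_right (isClosed_le continuous_const (continuous_fst.dist continuous_snd))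
    rcases S.eq_empty_or_nonempty with h0 | hne
    · refine ⟨1, one_pos, fun p hp q hq _ => ?_⟩
      by_contra hcon
      push Not at hcon
      have : (p, q) ∈ S := ⟨⟨hp, hq⟩, hcon.le⟩
      rw [h0] at this
      exact this
    · have hcont : ContinuousOn (fun pq : P × P => |f pq.1 - f pq.2|) S := by
        apply ContinuousOn.abs
        apply ContinuousOn.sub
        · exact hf.comp continuousOn_fst (fun x hx => hx.1.1)
        · exact hf.comp continuousOn_snd (fun x hx => hx.1.2)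
      obtain ⟨⟨p0, q0⟩, hpq, hmin⟩ := hScomp.exists_isMinOn hne hcont
      have hpos : 0 < |f p0 - f q0| := by
        rw [abs_pos, sub_ne_zero]
        intro heq
        have h1 := hfib p0 hpq.1.1 q0 hpq.1.2 heq
        have h2 : 3 * ε / 4 ≤ dist p0 q0 := hpq.2
        linarith
      refine ⟨|f p0 - f q0| / 4, by positivity, fun p hp q hq h => ?_⟩
      by_contra hcon
      push Not at hcon
      have h1 : |f p0 - f q0| ≤ |f p - f q| := hmin (show (p, q) ∈ S from ⟨⟨hp, hq⟩, hcon.le⟩)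
      linarith
  obtain ⟨w, hw, hwd⟩ := step1
  obtain ⟨m, hm⟩ := exists_nat_gt ((hi - lo) / w)
  have hm0 : (0:ℝ) < m := lt_trans (div_pos (sub_pos.2 hlo) hw) hm
  set h : ℝ := (hi - lo) / m with hh
  have hh0 : 0 < h := div_pos (sub_pos.2 hlo) hm0
  have hhw : h ≤ w := by
    rw [hh, div_le_iff₀ hm0]
    rw [div_lt_iff₀ hw] at hm
    linarith
  have hmh : (m : ℝ) * h = hi - lo := by rw [hh]; field_simp
  choose U hUo hUeq using fun i : Fin (m + 1) =>
    (continuousOn_iff'.1 hf) (Ioo (lo + ((i : ℕ) - 1 : ℝ) * h) (lo + ((i : ℕ) + 1 : ℝ) * h)) isOpen_Ioo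
  have hmem : ∀ i : Fin (m + 1), ∀ p ∈ K, (p ∈ U i ↔ f p ∈ Ioo (lo + ((i : ℕ) - 1 : ℝ) * h) (lo + ((i : ℕ) + 1 : ℝ) * h)) := by
    intro i p hp
    constructor
    · intro hU
      have : p ∈ U i ∩ K := ⟨hU, hp⟩
      rw [← hUeq] at this
      exact this.1
    · intro hU
      have : p ∈ f ⁻¹' (Ioo (lo + ((i : ℕ) - 1 : ℝ) * h) (lo + ((i : ℕ) + 1 : ℝ) * h)) ∩ K := ⟨hU, hp⟩
      rw [hUeq] at this
      exact this.1
  refine ⟨m + 1, U, hUo, ?_, ?_, ?_⟩
  · intro p hp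
    have hfp : f p ∈ Icc lo hi := by rw [← himg]; exact ⟨p, hp, rfl⟩
    have h1 : 0 ≤ (f p - lo) / h := div_nonneg (by linarith [hfp.1]) hh0.le
    have h2 := Nat.floor_le h1
    have h3 := Nat.lt_floor_add_one ((f p - lo) / h)
    rw [le_div_iff₀ hh0] at h2
    rw [div_lt_iff₀ hh0] at h3
    have h4 : ⌊(f p - lo) / h⌋₊ < m + 1 := by
      have h5 : (⌊(f p - lo) / h⌋₊ : ℝ) * h ≤ m * h := by
        rw [hmh]; linarith [hfp.2]
      have h6 := le_of_mul_le_mul_right h5 hh0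
      have h7 : ⌊(f p - lo) / h⌋₊ ≤ m := by exact_mod_cast h6
      omega
    refine mem_iUnion.2 ⟨⟨⌊(f p - lo) / h⌋₊, h4⟩, ?_⟩
    rw [hmem _ p hp]
    constructor
    · show lo + ((⌊(f p - lo) / h⌋₊ : ℝ) - 1) * h < f p
      linarith
    · show f p < lo + ((⌊(f p - lo) / h⌋₊ : ℝ) + 1) * h
      linarith
  · intro i j
    constructor
    · rintro ⟨p, ⟨hp, hpi⟩, hpj⟩
      rw [hmem i p hp] at hpi
      rw [hmem j p hp] at hpj
      have h1 : ((i : ℕ) - 1 : ℝ) * h < ((j : ℕ) + 1 : ℝ) * h := by linarith [hpi.1, hpj.2]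
      have h2 : ((j : ℕ) - 1 : ℝ) * h < ((i : ℕ) + 1 : ℝ) * h := by linarith [hpj.1, hpi.2]
      have h3 := lt_of_mul_lt_mul_right h1 hh0.le
      have h4 := lt_of_mul_lt_mul_right h2 hh0.le
      have h5 : ((i : ℕ) : ℝ) < (j : ℕ) + 2 := by linarith
      have h6 : ((j : ℕ) : ℝ) < (i : ℕ) + 2 := by linarith
      have h7 : (i : ℕ) < (j : ℕ) + 2 := by exact_mod_cast h5
      have h8 : (j : ℕ) < (i : ℕ) + 2 := by exact_mod_cast h6
      omega
    · rintro ⟨h1, h2⟩
      have h1' : ((i : ℕ) : ℝ) ≤ (j : ℕ) + 1 := by exact_mod_cast h1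
      have h2' : ((j : ℕ) : ℝ) ≤ (i : ℕ) + 1 := by exact_mod_cast h2
      have h3 : ((i : ℕ) : ℝ) ≤ m := by exact_mod_cast Nat.lt_succ_iff.1 i.2
      have h4 : ((j : ℕ) : ℝ) ≤ m := by exact_mod_cast Nat.lt_succ_iff.1 j.2
      have h5 : lo + (((i : ℕ) + (j : ℕ) : ℝ) / 2) * h ∈ Icc lo hi := by
        constructor
        · have : 0 ≤ (((i : ℕ) + (j : ℕ) : ℝ) / 2) * h := by positivity
          linarith
        · have : (((i : ℕ) + (j : ℕ) : ℝ) / 2) * h ≤ m * h :=
            mul_le_mul_of_nonneg_right (by linarith) hh0.le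
          linarith
      rw [← himg] at h5
      obtain ⟨p, hp, hfp⟩ := h5
      refine ⟨p, ⟨hp, ?_⟩, ?_⟩
      · rw [hmem i p hp, hfp]
        constructor <;> nlinarith
      · rw [hmem j p hp, hfp]
        constructor <;> nlinarith
  · intro i
    have h1 : Metric.diam (K ∩ U i) ≤ 3 * ε / 4 := by
      apply Metric.diam_le_of_forall_dist_le (by positivity)
      rintro p ⟨hp, hpi⟩ q ⟨hq, hqi⟩
      apply hwd p hp q hq
      rw [hmem i p hp] at hpi
      rw [hmem i q hq] at hqi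
      rw [abs_le]
      constructor <;> nlinarith [hpi.1, hpi.2, hqi.1, hqi.2]
    linarith

theorem h845_inv {r : ℝ → P} (hc : Continuous r) {T : ℝ} (hi : InjOn r (Icc 0 T)) :
    ContinuousOn (Function.invFunOn r (Icc 0 T)) (r '' Icc 0 T) := by
  rw [continuousOn_iff_isClosed]
  intro F hF
  refine ⟨r '' (F ∩ Icc 0 T), ((isCompact_Icc.inter_left hF).image hc).isClosed, ?_⟩
  ext p
  constructor
  · rintro ⟨h1, h2⟩
    refine ⟨⟨Function.invFunOn r (Icc 0 T) p, ⟨h1, Function.invFunOn_mem h2⟩, Function.invFunOn_eq h2⟩, h2⟩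
  · rintro ⟨⟨s, ⟨hs1, hs2⟩, hs3⟩, h2⟩
    refine ⟨?_, h2⟩
    have : Function.invFunOn r (Icc 0 T) p = s := by
      apply hi (Function.invFunOn_mem h2) hs2
      rw [Function.invFunOn_eq h2, hs3]
    show Function.invFunOn r (Icc 0 T) p ∈ F
    rw [this]; exact hs1

theorem h845_invFun {r : ℝ → P} {T s : ℝ} (hi : InjOn r (Icc 0 T)) (hs : s ∈ Icc 0 T) :
    Function.invFunOn r (Icc 0 T) (r s) = s := by
  have h2 : r s ∈ r '' Icc 0 T := mem_image_of_mem r hs
  apply hi (Function.invFunOn_mem h2) hs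
  exact Function.invFunOn_eq h2

theorem h845_dist {p q : P} {ε : ℝ} (h0 : p 0 = q 0) (hp : |p 1| ≤ ε / 8) (hq : |q 1| ≤ ε / 8) :
    dist p q ≤ ε / 2 := by
  rw [EuclideanSpace.dist_eq, Fin.sum_univ_two, h0, dist_self]
  have h1 : dist (p 1) (q 1) ≤ ε / 4 := by
    rw [Real.dist_eq]
    have := abs_sub (p 1) (q 1)
    linarith
  have hε : 0 ≤ ε := by
    have := abs_nonneg (p 1)
    linarith
  rw [zero_pow (by norm_num), zero_add, Real.sqrt_sq dist_nonneg]
  linarith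

theorem chain_ray {rp rm : ℝ → P} (D : Dbl seg rp rm)
    (hx : ∀ t, 0 ≤ t → rp t 0 ∈ Icc (0 : ℝ) 10) (hx' : ∀ t, 0 ≤ t → rm t 0 ∈ Icc (0 : ℝ) 10)
    (h10 : ∀ N : ℝ, ∃ t, N ≤ t ∧ 0 ≤ t ∧ rp t 0 = 10)
    (h0 : ∀ N : ℝ, ∃ t, N ≤ t ∧ 0 ≤ t ∧ rm t 0 = 0) : Chainable (KK seg rp rm) := by
  classical
  intro ε hε
  set J : Set P := seg '' Icc 0 10 with hJ
  have hJc : IsCompact J := isCompact_Icc.image D.jc
  have hO : IsOpen {p : P | |p 1| < ε / 8} := by
    have : Continuous (fun p : P => |p 1|) := by fun_prop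
    exact isOpen_lt this continuous_const
  have hJO : J ⊆ {p : P | |p 1| < ε / 8} := by
    rintro _ ⟨x, _, rfl⟩
    show |(seg x) 1| < ε / 8
    have : (seg x) 1 = 0 := by simp [seg]
    rw [this, abs_zero]; positivity
  obtain ⟨N1, hN1, hN1'⟩ := D.p.lim _ hO hJO
  obtain ⟨N2, hN2, hN2'⟩ := D.m.lim _ hO hJO
  obtain ⟨t, ht1, ht0, ht10⟩ := h10 N1
  obtain ⟨t', ht1', ht0', htz'⟩ := h0 N2
  have hpi : InjOn rp (Icc 0 t) := D.p.inj.mono (fun x hx => hx.1)
  have hmi : InjOn rm (Icc 0 t') := D.m.inj.mono (fun x hx => hx.1)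
  set ip := Function.invFunOn rp (Icc 0 t) with hip
  set im := Function.invFunOn rm (Icc 0 t') with him
  set C1 : Set P := (J ∪ rp '' Ici t) ∪ (J ∪ rm '' Ici t') with hC1
  set C2 : Set P := rp '' Icc 0 t with hC2
  set C3 : Set P := rm '' Icc 0 t' with hC3
  have hC1c : IsCompact C1 := (D.p.isCompact_tail hJc ht0).union (D.m.isCompact_tail hJc ht0')
  have hC2c : IsCompact C2 := isCompact_Icc.image D.p.cont
  have hC3c : IsCompact C3 := isCompact_Icc.image D.m.cont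
  have hKK : KK seg rp rm = C1 ∪ C2 ∪ C3 := by
    ext p
    constructor
    · rintro ((h | ⟨s, hs, rfl⟩) | ⟨s, hs, rfl⟩)
      · exact Or.inl (Or.inl (Or.inl (Or.inl h)))
      · rcases le_total s t with h | h
        · exact Or.inl (Or.inr ⟨s, ⟨hs, h⟩, rfl⟩)
        · exact Or.inl (Or.inl (Or.inl (Or.inr ⟨s, h, rfl⟩)))
      · rcases le_total s t' with h | h
        · exact Or.inr ⟨s, ⟨hs, h⟩, rfl⟩
        · exact Or.inl (Or.inl (Or.inr (Or.inr ⟨s, h, rfl⟩)))
    · rintro ((((h | ⟨s, hs, rfl⟩) | (h | ⟨s, hs, rfl⟩)) | ⟨s, hs, rfl⟩) | ⟨s, hs, rfl⟩)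
      · exact Or.inl (Or.inl h)
      · exact Or.inl (Or.inr ⟨s, ht0.trans hs, rfl⟩)
      · exact Or.inl (Or.inl h)
      · exact Or.inr ⟨s, ht0'.trans hs, rfl⟩
      · exact Or.inl (Or.inr ⟨s, hs.1, rfl⟩)
      · exact Or.inr ⟨s, hs.1, rfl⟩
  set f : P → ℝ := fun p => if p ∈ C2 then 10 + (t - ip p) else if p ∈ C3 then im p - t' else p 0 with hf
  have hf2 : ∀ p ∈ C2, f p = 10 + (t - ip p) := by
    intro p hp; simp only [hf]; rw [if_pos hp]
  have h23 : ∀ p ∈ C3, p ∉ C2 := by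
    rintro _ ⟨s, hs, rfl⟩ ⟨s', hs', h⟩
    exact D.dis s' s hs'.1 hs.1 h
  have hf3 : ∀ p ∈ C3, f p = im p - t' := by
    intro p hp; simp only [hf]; rw [if_neg (h23 p hp), if_pos hp]
  have hf1 : ∀ p ∈ C1, f p = p 0 := by
    intro p hp
    by_cases h2 : p ∈ C2
    · rw [hf2 p h2]
      obtain ⟨s, hs, rfl⟩ := h2
      have hst : s = t := by
        rcases hp with (h | ⟨s', hs', h⟩) | (h | ⟨s', hs', h⟩)
        · exact absurd h (D.p.disj s hs.1)
        · have hs0 : (0:ℝ) ≤ s' := ht0.trans hs'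
          have := D.p.inj hs0 hs.1 h
          subst this
          exact le_antisymm hs.2 hs'
        · exact absurd h (D.p.disj s hs.1)
        · exact absurd h.symm (D.dis s s' hs.1 (ht0'.trans hs'))
      subst hst
      rw [hip, h845_invFun hpi hs, ht10]; ring
    · by_cases h3 : p ∈ C3
      · rw [hf3 p h3]
        obtain ⟨s, hs, rfl⟩ := h3
        have hst : s = t' := by
          rcases hp with (h | ⟨s', hs', h⟩) | (h | ⟨s', hs', h⟩)
          · exact absurd h (D.m.disj s hs.1)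
          · exact absurd h (D.dis s' s (ht0.trans hs') hs.1)
          · exact absurd h (D.m.disj s hs.1)
          · have hs0 : (0:ℝ) ≤ s' := ht0'.trans hs'
            have := D.m.inj hs0 hs.1 h
            subst this
            exact le_antisymm hs.2 hs'
        subst hst
        rw [him, h845_invFun hmi hs, htz']; ring
      · simp only [hf]; rw [if_neg h2, if_neg h3]
  have hcont : ContinuousOn f (KK seg rp rm) := by
    rw [hKK]
    have c1 : ContinuousOn f C1 := by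
      have : ContinuousOn (fun p : P => p 0) C1 := by fun_prop
      exact this.congr hf1
    have c2 : ContinuousOn f C2 := by
      have : ContinuousOn (fun p : P => 10 + (t - ip p)) C2 :=
        continuousOn_const.add (continuousOn_const.sub (h845_inv D.p.cont hpi))
      exact this.congr hf2
    have c3 : ContinuousOn f C3 := by
      have : ContinuousOn (fun p : P => im p - t') C3 :=
        (h845_inv D.m.cont hmi).sub continuousOn_const
      exact this.congr hf3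
    exact (c1.union_of_isClosed c2 hC1c.isClosed hC2c.isClosed).union_of_isClosed c3 (hC1c.isClosed.union hC2c.isClosed) hC3c.isClosed
  have r1 : ∀ p ∈ C1, f p ∈ Icc (0:ℝ) 10 := by
    intro p hp
    rw [hf1 p hp]
    rcases hp with (⟨x, hx1, rfl⟩ | ⟨s', hs', rfl⟩) | (⟨x, hx1, rfl⟩ | ⟨s', hs', rfl⟩)
    · simpa [seg] using hx1
    · exact hx s' (ht0.trans hs')
    · simpa [seg] using hx1
    · exact hx' s' (ht0'.trans hs')
  have r2 : ∀ p ∈ C2, ip p ∈ Icc 0 t ∧ rp (ip p) = p := fun p hp => ⟨Function.invFunOn_mem hp, Function.invFunOn_eq hp⟩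
  have r3 : ∀ p ∈ C3, im p ∈ Icc 0 t' ∧ rm (im p) = p := fun p hp => ⟨Function.invFunOn_mem hp, Function.invFunOn_eq hp⟩
  have himg : f '' (KK seg rp rm) = Icc (-t') (10 + t) := by
    rw [hKK]
    ext y
    constructor
    · rintro ⟨p, (hp | hp) | hp, rfl⟩
      · have := r1 p hp
        exact ⟨by linarith [this.1], by linarith [this.2]⟩
      · rw [hf2 p hp]
        have := (r2 p hp).1
        exact ⟨by linarith [this.2], by linarith [this.1]⟩
      · rw [hf3 p hp]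
        have := (r3 p hp).1
        exact ⟨by linarith [this.1], by linarith [this.2]⟩
    · rintro ⟨hy1, hy2⟩
      rcases lt_or_ge y 0 with h | h
      · have hs : y + t' ∈ Icc 0 t' := ⟨by linarith, by linarith⟩
        refine ⟨rm (y + t'), Or.inr ⟨_, hs, rfl⟩, ?_⟩
        rw [hf3 _ ⟨_, hs, rfl⟩, him, h845_invFun hmi hs]; ring
      · rcases le_or_gt y 10 with h' | h'
        · refine ⟨seg y, Or.inl (Or.inl (Or.inl (Or.inl ⟨y, ⟨h, h'⟩, rfl⟩))), ?_⟩
          rw [hf1 _ (Or.inl (Or.inl ⟨y, ⟨h, h'⟩, rfl⟩))]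
          simp [seg]
        · have hs : 10 + t - y ∈ Icc 0 t := ⟨by linarith, by linarith⟩
          refine ⟨rp (10 + t - y), Or.inl (Or.inr ⟨_, hs, rfl⟩), ?_⟩
          rw [hf2 _ ⟨_, hs, rfl⟩, hip, h845_invFun hpi hs]; ring
  have b1 : ∀ p ∈ C1, |p 1| ≤ ε / 8 := by
    intro p hp
    rcases hp with (h | ⟨s', hs', rfl⟩) | (h | ⟨s', hs', rfl⟩)
    · exact (hJO h).le
    · exact (hN1' s' (ht1.trans hs')).le
    · exact (hJO h).le
    · exact (hN2' s' (ht1'.trans hs')).le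
  have f11 : ∀ p ∈ C1, ∀ q ∈ C1, f p = f q → dist p q ≤ ε / 2 := by
    intro p hp q hq h
    rw [hf1 p hp, hf1 q hq] at h
    exact h845_dist h (b1 p hp) (b1 q hq)
  have f12 : ∀ p ∈ C1, ∀ q ∈ C2, f p = f q → dist p q ≤ ε / 2 := by
    intro p hp q hq h
    have h1 := (r1 p hp).2
    obtain ⟨h2, h3⟩ := r2 q hq
    have hq1 : q ∈ C1 := by
      have h4 := hf2 q hq
      have h5 : ip q = t := le_antisymm h2.2 (by linarith)
      rw [h5] at h3
      exact Or.inl (Or.inr ⟨t, self_mem_Ici, h3⟩)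
    exact f11 p hp q hq1 h
  have f13 : ∀ p ∈ C1, ∀ q ∈ C3, f p = f q → dist p q ≤ ε / 2 := by
    intro p hp q hq h
    have h1 := (r1 p hp).1
    obtain ⟨h2, h3⟩ := r3 q hq
    have hq1 : q ∈ C1 := by
      have h4 := hf3 q hq
      have h5 : im q = t' := le_antisymm h2.2 (by linarith)
      rw [h5] at h3
      exact Or.inr (Or.inr ⟨t', self_mem_Ici, h3⟩)
    exact f11 p hp q hq1 h
  have f22 : ∀ p ∈ C2, ∀ q ∈ C2, f p = f q → dist p q ≤ ε / 2 := by
    intro p hp q hq h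
    rw [hf2 p hp, hf2 q hq] at h
    have h1 : ip p = ip q := by linarith
    have h2 := (r2 p hp).2
    rw [h1, (r2 q hq).2] at h2
    rw [h2, dist_self]; positivity
  have f33 : ∀ p ∈ C3, ∀ q ∈ C3, f p = f q → dist p q ≤ ε / 2 := by
    intro p hp q hq h
    rw [hf3 p hp, hf3 q hq] at h
    have h1 : im p = im q := by linarith
    have h2 := (r3 p hp).2
    rw [h1, (r3 q hq).2] at h2
    rw [h2, dist_self]; positivity
  have f23 : ∀ p ∈ C2, ∀ q ∈ C3, f p ≠ f q := by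
    intro p hp q hq h
    rw [hf2 p hp, hf3 q hq] at h
    have h1 := (r2 p hp).1.2
    have h2 := (r3 q hq).1.2
    linarith
  refine chain_of_map ?_ f hcont (by linarith : -t' < 10 + t) himg hε ?_
  · rw [hKK]; exact (hC1c.union hC2c).union hC3c
  · intro p hp q hq h
    rw [hKK] at hp hq
    rcases hp with (hp | hp) | hp <;> rcases hq with (hq | hq) | hq
    · exact f11 p hp q hq h
    · exact f12 p hp q hq h
    · exact f13 p hp q hq h
    · rw [dist_comm]; exact f12 q hq p hp h.symm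
    · exact f22 p hp q hq h
    · exact absurd h (f23 p hp q hq)
    · rw [dist_comm]; exact f13 q hq p hp h.symm
    · exact absurd h.symm (f23 q hq p hp)
    · exact f33 p hp q hq h

end Pool.Agent.Helper302.Univ
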