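import Mathlib

set_option autoImplicit false

namespace Pool.Agent.Helper302.Univ

open Set Filter Topology

abbrev P := EuclideanSpace ℝ (Fin 2)

/-- chainability, exactly as in the frozen statement -/
def Chainable (M : Set P) : Prop :=
  ∀ ε : ℝ, 0 < ε → ∃ n : ℕ, ∃ U : Fin n → Set P,
    (∀ i, IsOpen (U i)) ∧ M ⊆ ⋃ i, U i ∧
    (∀ i j : Fin n, ((M ∩ U i ∩ U j).Nonempty ↔
        ((i : ℕ) ≤ (j : ℕ) + 1 ∧ (j : ℕ) ≤ (i : ℕ) + 1))) ∧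
    ∀ i, Metric.diam (M ∩ U i) < ε

/-- a ray `r : [0,∞) → P` whose limit set is exactly the (compact) set `J` -/
structure Arm (J : Set P) (r : ℝ → P) : Prop where
  cont : Continuous r
  inj : InjOn r (Ici 0)
  disj : ∀ t, 0 ≤ t → r t ∉ J
  lim : ∀ O : Set P, IsOpen O → J ⊆ O → ∃ N : ℝ, 0 ≤ N ∧ ∀ t, N ≤ t → r t ∈ O
  clus : ∀ p ∈ J, ∀ O : Set P, IsOpen O → p ∈ O → ∀ N : ℝ, ∃ t, N ≤ t ∧ 0 ≤ t ∧ r t ∈ O

/-- an arc with two disjoint rays limiting on it -/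
structure Dbl (j rp rm : ℝ → P) : Prop where
  jc : Continuous j
  ji : InjOn j (Icc 0 10)
  p : Arm (j '' Icc 0 10) rp
  m : Arm (j '' Icc 0 10) rm
  dis : ∀ s t, 0 ≤ s → 0 ≤ t → rp s ≠ rm t

def KK (j rp rm : ℝ → P) : Set P := j '' Icc 0 10 ∪ rp '' Ici 0 ∪ rm '' Ici 0

end Pool.Agent.Helper302.Univ
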