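import Pool.Agent.Helper302.Univ.Top

set_option autoImplicit false

namespace Pool.Agent.Helper302.Univ

open Set Filter Topology

theorem Dbl.tri {M : Set P} (hM : IsCompact M) (hch : Chainable M) {j rp rm : ℝ → P}
    (D : Dbl j rp rm) (hK : KK j rp rm ⊆ M) {L : Set P} (hL : L ⊆ M) (cL : IsClosed L)
    (pL : IsPreconnected L) {z : P} (zL : z ∈ L) (zJ : z ∈ j '' Icc 0 10) :
    L ⊆ KK j rp rm ∨ rp '' Ici 0 ⊆ L ∨ rm '' Ici 0 ⊆ L := by
  have hJM : j '' Icc 0 10 ⊆ M := fun x hx => hK (Or.inl (Or.inl hx))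
  have hpM : rp '' Ici 0 ⊆ M := fun x hx => hK (Or.inl (Or.inr hx))
  have hmM : rm '' Ici 0 ⊆ M := fun x hx => hK (Or.inr hx)
  have h := triod hM hch (A := j '' Icc 0 10 ∪ L) (B := j '' Icc 0 10 ∪ rp '' Ici 0)
    (C := j '' Icc 0 10 ∪ rm '' Ici 0) (union_subset hJM hL) (union_subset hJM hpM)
    (union_subset hJM hmM) (D.isCompact_J.isClosed.union cL)
    (D.p.isCompact_tail D.isCompact_J le_rfl).isClosed
    (D.m.isCompact_tail D.isCompact_J le_rfl).isClosed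
    (D.isPreconnected_J.union z zJ zL pL) D.p.isPreconnected D.m.isPreconnected
    (z := z) (Or.inl zJ) (Or.inl zJ) (Or.inl zJ)
  rcases h with h | h | h
  · left
    intro x hx
    rw [KK_eq]
    exact h (Or.inr hx)
  · right; left
    rintro _ ⟨t, ht, rfl⟩
    rcases h (Or.inr ⟨t, ht, rfl⟩) with (h1 | h1) | (h1 | ⟨s, hs, h1⟩)
    · exact absurd h1 (D.p.disj t ht)
    · exact h1
    · exact absurd h1 (D.p.disj t ht)
    · exact absurd h1.symm (D.dis t s ht hs)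
  · right; right
    rintro _ ⟨t, ht, rfl⟩
    rcases h (Or.inr ⟨t, ht, rfl⟩) with (h1 | h1) | (h1 | ⟨s, hs, h1⟩)
    · exact absurd h1 (D.m.disj t ht)
    · exact h1
    · exact absurd h1 (D.m.disj t ht)
    · exact absurd h1 (D.dis s t hs ht)

theorem Dbl.zero_mem {j rp rm : ℝ → P} (_D : Dbl j rp rm) : j 0 ∈ j '' Icc 0 10 :=
  ⟨0, ⟨le_rfl, by norm_num⟩, rfl⟩

theorem Dbl.ten_mem {j rp rm : ℝ → P} (_D : Dbl j rp rm) : j 10 ∈ j '' Icc 0 10 :=
  ⟨10, ⟨by norm_num, le_rfl⟩, rfl⟩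

theorem Dbl.J_subset {M : Set P} (hM : IsCompact M) (hch : Chainable M)
    {j1 p1 m1 j2 p2 m2 : ℝ → P} (D1 : Dbl j1 p1 m1) (D2 : Dbl j2 p2 m2)
    (h1 : KK j1 p1 m1 ⊆ M) (h2 : KK j2 p2 m2 ⊆ M) {z : P} (z1 : z ∈ j1 '' Icc 0 10)
    (z2 : z ∈ j2 '' Icc 0 10) : j2 '' Icc 0 10 ⊆ j1 '' Icc 0 10 := by
  have hJM : j2 '' Icc 0 10 ⊆ M := fun x hx => h2 (Or.inl (Or.inl hx))
  rcases D1.tri hM hch h1 hJM D2.isCompact_J.isClosed D2.isPreconnected_J z2 z1 with h | h | h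
  · obtain ⟨s0, hs0, rfl⟩ := z2
    rintro _ ⟨s, hs, rfl⟩
    exact D1.path_stay D2.jc.continuousOn (fun s hs => h ⟨s, hs, rfl⟩) hs0 z1 s hs
  · exact (D1.p.no_arc D1.zero_mem D1.ten_mem D1.j_ne D2.jc.continuousOn D2.ji le_rfl
      (fun t ht => h ⟨t, ht, rfl⟩)).elim
  · exact (D1.m.no_arc D1.zero_mem D1.ten_mem D1.j_ne D2.jc.continuousOn D2.ji le_rfl
      (fun t ht => h ⟨t, ht, rfl⟩)).elim

theorem dichotomy {M : Set P} (hM : IsCompact M) (hch : Chainable M)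
    {j1 p1 m1 j2 p2 m2 : ℝ → P} (D1 : Dbl j1 p1 m1) (D2 : Dbl j2 p2 m2)
    (h1 : KK j1 p1 m1 ⊆ M) (h2 : KK j2 p2 m2 ⊆ M) :
    (∀ z ∈ j2 '' Icc 0 10, z ∉ KK j1 p1 m1) ∨
    (j1 '' Icc 0 10 = j2 '' Icc 0 10 ∧ ∃ q : ℝ → P, (q = p1 ∨ q = m1) ∧
      (p2 '' Ici 0 ⊆ q '' Ici 0 ∨ q '' Ici 0 ⊆ p2 '' Ici 0)) := by
  by_cases hdis : Disjoint (j1 '' Icc 0 10) (j2 '' Icc 0 10)
  · left
    intro z z2 z1
    have hp1 : p1 '' Ici 0 ⊆ KK j1 p1 m1 := fun x hx => Or.inl (Or.inr hx)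
    have hp2 : p2 '' Ici 0 ⊆ KK j2 p2 m2 := fun x hx => Or.inl (Or.inr hx)
    rcases D2.tri hM hch h2 h1 D1.isCompact.isClosed D1.isConnected.isPreconnected z1 z2 with
      h | h | h
    · exact D2.no_far D1.p D1.isCompact_J D1.zero_mem D1.ten_mem D1.j_ne (hp1.trans h) hdis
    · exact D1.no_far D2.p D2.isCompact_J D2.zero_mem D2.ten_mem D2.j_ne h hdis.symm
    · exact D1.no_far D2.m D2.isCompact_J D2.zero_mem D2.ten_mem D2.j_ne h hdis.symm
  · right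
    obtain ⟨z, z1, z2⟩ := Set.not_disjoint_iff.mp hdis
    have hJ : j1 '' Icc 0 10 = j2 '' Icc 0 10 :=
      Subset.antisymm (D2.J_subset hM hch D1 h2 h1 z2 z1) (D1.J_subset hM hch D2 h1 h2 z1 z2)
    refine ⟨hJ, ?_⟩
    have hJM : j1 '' Icc 0 10 ⊆ M := fun x hx => h1 (Or.inl (Or.inl hx))
    have hpM : p1 '' Ici 0 ⊆ M := fun x hx => h1 (Or.inl (Or.inr hx))
    have hmM : m1 '' Ici 0 ⊆ M := fun x hx => h1 (Or.inr hx)
    have hp2M : p2 '' Ici 0 ⊆ M := fun x hx => h2 (Or.inl (Or.inr hx))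
    have D2p : Arm (j1 '' Icc 0 10) p2 := by rw [hJ]; exact D2.p
    have c1 := (D1.p.isCompact_tail D1.isCompact_J le_rfl).isClosed
    have c2 := (D1.m.isCompact_tail D1.isCompact_J le_rfl).isClosed
    have c3 := (D2p.isCompact_tail D1.isCompact_J le_rfl).isClosed
    have h := triod hM hch (A := j1 '' Icc 0 10 ∪ m1 '' Ici 0)
      (B := j1 '' Icc 0 10 ∪ p1 '' Ici 0) (C := j1 '' Icc 0 10 ∪ p2 '' Ici 0)
      (union_subset hJM hmM) (union_subset hJM hpM) (union_subset hJM hp2M)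
      c2 c1 c3 D1.m.isPreconnected D1.p.isPreconnected D2p.isPreconnected
      (z := z) (Or.inl z1) (Or.inl z1) (Or.inl z1)
    rcases h with h | h | h
    · refine ⟨m1, Or.inr rfl, Or.inr ?_⟩
      rintro _ ⟨t, ht, rfl⟩
      rcases h (Or.inr ⟨t, ht, rfl⟩) with (h3 | ⟨s, hs, h3⟩) | (h3 | h3)
      · exact absurd h3 (D1.m.disj t ht)
      · exact absurd h3 (D1.dis s t hs ht)
      · exact absurd h3 (D1.m.disj t ht)
      · exact h3
    · refine ⟨p1, Or.inl rfl, Or.inr ?_⟩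
      rintro _ ⟨t, ht, rfl⟩
      rcases h (Or.inr ⟨t, ht, rfl⟩) with (h3 | ⟨s, hs, h3⟩) | (h3 | h3)
      · exact absurd h3 (D1.p.disj t ht)
      · exact absurd h3.symm (D1.dis t s ht hs)
      · exact absurd h3 (D1.p.disj t ht)
      · exact h3
    · -- `p2''Ici 0` lies in one of the two arms
      have hpre : IsPreconnected (p2 '' Ici 0) :=
        isPreconnected_Ici.image _ D2p.cont.continuousOn
      have hcov : p2 '' Ici 0 ⊆ (j1 '' Icc 0 10 ∪ m1 '' Ici 0) ∪ (j1 '' Icc 0 10 ∪ p1 '' Ici 0) :=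
        fun x hx => h (Or.inr hx)
      have hcl := isPreconnected_closed_iff.mp hpre _ _ c2 c1 hcov
      by_cases hm : ((p2 '' Ici 0) ∩ (j1 '' Icc 0 10 ∪ m1 '' Ici 0)).Nonempty
      · refine ⟨m1, Or.inr rfl, Or.inl ?_⟩
        rintro _ ⟨t, ht, rfl⟩
        rcases hcov ⟨t, ht, rfl⟩ with (h3 | h3) | (h3 | h3)
        · exact absurd h3 (D2p.disj t ht)
        · exact h3
        · exact absurd h3 (D2p.disj t ht)
        · exfalso
          obtain ⟨w, ⟨t', ht', rfl⟩, h4, h5⟩ := hcl hm ⟨p2 t, ⟨t, ht, rfl⟩, Or.inr h3⟩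
          rcases h4 with h4 | ⟨a, ha, h4⟩
          · exact D2p.disj t' ht' h4
          · rcases h5 with h5 | ⟨b, hb, h5⟩
            · exact D2p.disj t' ht' h5
            · exact D1.dis b a hb ha (h5.trans h4.symm)
      · refine ⟨p1, Or.inl rfl, Or.inl ?_⟩
        rintro _ ⟨t, ht, rfl⟩
        rcases hcov ⟨t, ht, rfl⟩ with h3 | (h3 | h3)
        · exact absurd ⟨p2 t, ⟨t, ht, rfl⟩, h3⟩ hm
        · exact absurd h3 (D2p.disj t ht)
        · exact h3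

/-- transport by a homeomorphism of the plane -/
theorem Arm.map {J : Set P} {r : ℝ → P} (h : Arm J r) (g : P ≃ₜ P) :
    Arm (g '' J) (fun t => g (r t)) where
  cont := g.continuous.comp h.cont
  inj := fun a ha b hb hab => h.inj ha hb (g.injective hab)
  disj := fun t ht ⟨x, hx, hxe⟩ => h.disj t ht (by rw [← g.injective hxe]; exact hx)
  lim := fun O hO hJ => by
    obtain ⟨N, hN, hN'⟩ := h.lim (g ⁻¹' O) (hO.preimage g.continuous)
      (fun x hx => hJ ⟨x, hx, rfl⟩)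
    exact ⟨N, hN, hN'⟩
  clus := by
    rintro _ ⟨p, hp, rfl⟩ O hO hpO N
    exact h.clus p hp (g ⁻¹' O) (hO.preimage g.continuous) hpO N

theorem Dbl.map {j rp rm : ℝ → P} (D : Dbl j rp rm) (g : P ≃ₜ P) :
    Dbl (fun t => g (j t)) (fun t => g (rp t)) (fun t => g (rm t)) where
  jc := g.continuous.comp D.jc
  ji := fun a ha b hb hab => D.ji ha hb (g.injective hab)
  p := by
    have h : (fun t => g (j t)) '' Icc 0 10 = g '' (j '' Icc 0 10) := by rw [image_image]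
    rw [h]; exact D.p.map g
  m := by
    have h : (fun t => g (j t)) '' Icc 0 10 = g '' (j '' Icc 0 10) := by rw [image_image]
    rw [h]; exact D.m.map g
  dis := fun s t hs ht h => D.dis s t hs ht (g.injective h)

theorem KK_map (j rp rm : ℝ → P) (g : P ≃ₜ P) :
    KK (fun t => g (j t)) (fun t => g (rp t)) (fun t => g (rm t)) = g '' KK j rp rm := by
  unfold KK
  rw [image_union, image_union, image_image, image_image, image_image]

end Pool.Agent.Helper302.Univ
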