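import Pool.Agent.Helper302.Univ.Block

set_option autoImplicit false

namespace Pool.Agent.Helper302.Univ

open Set Filter Topology

noncomputable section

theorem mem_ball_of {p : P} (h0 : |p 0| ≤ 10) (h1 : |p 1| ≤ 10) :
    p ∈ Metric.closedBall (0 : P) 20 := by
  rw [Metric.mem_closedBall]
  refine (pdist p 0).trans ?_
  have e0 : (0 : P) 0 = 0 := rfl
  have e1 : (0 : P) 1 = 0 := rfl
  rw [e0, e1, sub_zero, sub_zero]
  linarith

theorem seg_mem {s : ℝ} (hs : s ∈ Icc (0 : ℝ) 10) : seg s ∈ Metric.closedBall (0 : P) 20 := by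
  refine mem_ball_of ?_ ?_
  · rw [seg_zero, abs_of_nonneg hs.1]; exact hs.2
  · rw [seg_one, abs_zero]; norm_num

theorem pl_ys_le {t : ℝ} (ht : 0 ≤ t) : pl ys t ≤ 1 := by
  obtain ⟨i, h⟩ := formR (fun _ => true) ht
  have key : ∀ i : ℕ, 0 < 1 / (dep i : ℝ) ∧ 1 / (dep i : ℝ) ≤ 1 := by
    intro i
    have h1 : 1 ≤ dep i := dep_posR i
    have h2 : (1 : ℝ) ≤ dep i := by exact_mod_cast h1
    exact ⟨by positivity, by rw [div_le_one (by positivity)]; exact h2⟩
  have a1 := key i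
  have b1 := key (i + 1)
  rcases h with ⟨w, hw0, hw1, _, _, hy⟩ | ⟨w, hw0, hw1, _, _, hy⟩
  · rw [hy]; exact a1.2
  · rw [hy]
    nlinarith [a1.1, a1.2, b1.1, b1.2]

theorem ray_mem (α : ℕ → Bool) {t : ℝ} (ht : 0 ≤ t) : ray α t ∈ Metric.closedBall (0 : P) 20 := by
  have h := pl_xs_mem α ht
  have h1 := pl_ys_pos ht
  have h2 := pl_ys_le ht
  refine mem_ball_of ?_ ?_
  · rw [ray_zero, abs_of_nonneg h.1]; exact h.2
  · rw [ray_one, abs_of_pos h1]; linarith

theorem eps_exists (g : P ≃ₜ P) : ∃ ε : ℝ, 0 < ε ∧ ∀ p ∈ Metric.closedBall (0 : P) 20, ∀ w : P,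
    dist w (g p) < ε → dist (g.symm w) p < 1/4 := by
  have hK : IsCompact (g '' Metric.closedBall (0 : P) 20) :=
    (isCompact_closedBall 0 20).image g.continuous
  have hT : IsCompact (Metric.cthickening 1 (g '' Metric.closedBall (0 : P) 20)) :=
    hK.cthickening
  have huc := hT.uniformContinuousOn_of_continuous g.symm.continuous.continuousOn
  rw [Metric.uniformContinuousOn_iff] at huc
  obtain ⟨δ, hδ, h⟩ := huc (1/4) (by norm_num)
  refine ⟨min δ 1, lt_min hδ one_pos, fun p hp w hw => ?_⟩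
  have hgp : g p ∈ Metric.cthickening 1 (g '' Metric.closedBall (0 : P) 20) :=
    Metric.self_subset_cthickening _ ⟨p, hp, rfl⟩
  have hw' : w ∈ Metric.cthickening 1 (g '' Metric.closedBall (0 : P) 20) :=
    Metric.mem_cthickening_of_dist_le w (g p) 1 _ ⟨p, hp, rfl⟩
      (hw.le.trans (min_le_right _ _))
  have h3 := h w hw' (g p) hgp (lt_of_lt_of_le hw (min_le_left _ _))
  rwa [g.symm_apply_apply] at h3

theorem pair {M : Set P} (hM : IsCompact M) (hch : Chainable M) (α β : ℕ → Bool)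
    (g1 g2 : P ≃ₜ P) (h1 : g1 '' KK seg (ray α) (rayM α) ⊆ M)
    (h2 : g2 '' KK seg (ray β) (rayM β) ⊆ M) {ε : ℝ}
    (hε : ∀ p ∈ Metric.closedBall (0 : P) 20, ∀ w : P,
      dist w (g1 p) < ε → dist (g1.symm w) p < 1/4)
    (hclose : ∀ p ∈ Metric.closedBall (0 : P) 20, dist (g2 p) (g1 p) < ε) :
    (∃ m : ℕ, ∀ i, vv β (1 + i) = vv α (m + i)) ∨
    (∃ m : ℕ, ∀ i, vv α (1 + i) = vv β (m + i)) := by
  have D1 := (dbl α).map g1
  have D2 := (dbl β).map g2
  rcases dichotomy hM hch D1 D2 (by rw [KK_map]; exact h1) (by rw [KK_map]; exact h2) with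
    h | ⟨hJ, q, hq, hsub⟩
  · exfalso
    obtain ⟨s, hs, hse⟩ := blocked α (e := fun s => g1.symm (g2 (seg s)))
      ((g1.symm.continuous.comp (g2.continuous.comp (dbl β).jc)).continuousOn)
      (fun s hs => hε _ (seg_mem hs) _ (hclose _ (seg_mem hs)))
    refine h (g2 (seg s)) ⟨s, hs, rfl⟩ ?_
    rw [KK_map]
    exact ⟨_, hse, g1.apply_symm_apply _⟩
  · have hJc := D1.isCompact_J
    have A2 : Arm ((fun t => g1 (seg t)) '' Icc 0 10) (fun t => g2 (ray β t)) := by
      rw [hJ]; exact D2.p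
    obtain ⟨r, hqr, hr0⟩ : ∃ r : ℝ → P, q = (fun t => g1 (r t)) ∧
        ∀ t, r t 0 = pl (xs α) t := by
      rcases hq with hq | hq
      · exact ⟨ray α, hq, fun t => rfl⟩
      · exact ⟨rayM α, hq, fun t => rfl⟩
    have Aq : Arm ((fun t => g1 (seg t)) '' Icc 0 10) q := by
      rcases hq with hq | hq
      · rw [hq]; exact D1.p
      · rw [hq]; exact D1.m
    rcases hsub with hsub | hsub
    · left
      obtain ⟨τ, c1, c2, _, c4⟩ := Arm.reparam hJc A2 Aq hsub
      refine match_ray α β c1 c2 (fun s hs => (c4 s hs).1) (fun s hs => ?_)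
      have e1 : g2 (ray β s) = q (τ s) := (c4 s hs).2
      have e2 := hε _ (ray_mem β hs) _ (hclose _ (ray_mem β hs))
      rw [e1, hqr] at e2
      simp only [g1.symm_apply_apply] at e2
      have e3 := lt_of_le_of_lt (coord_le _ _ 0) e2
      rw [hr0, ray_zero, abs_sub_comm] at e3
      exact e3
    · right
      obtain ⟨τ, c1, c2, _, c4⟩ := Arm.reparam hJc Aq A2 hsub
      refine match_ray β α c1 c2 (fun s hs => (c4 s hs).1) (fun s hs => ?_)
      have e1 : q s = g2 (ray β (τ s)) := (c4 s hs).2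
      have e2 := hε _ (ray_mem β (c4 s hs).1) _ (hclose _ (ray_mem β (c4 s hs).1))
      rw [← e1, hqr] at e2
      simp only [g1.symm_apply_apply] at e2
      have e3 := lt_of_le_of_lt (coord_le _ _ 0) e2
      rw [hr0, ray_zero] at e3
      exact e3

theorem not_countable_bool : ¬ Countable (ℕ → Bool) := by
  intro h
  obtain ⟨f, hf⟩ := exists_injective_nat (ℕ → Bool)
  classical
  refine Function.cantor_injective (fun s : Set ℕ => f (fun n => decide (n ∈ s))) ?_
  intro s t hst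
  have h1 := hf hst
  ext n
  have h2 := congrFun h1 n
  exact decide_eq_decide.mp h2

theorem no_universal (M : Set P) (hM : IsCompact M) (hch : Chainable M)
    (hun : ∀ K : Set P, (IsCompact K ∧ IsConnected K ∧ Chainable K) →
      ∃ h : P ≃ₜ P, h '' K ⊆ M) : False := by
  have hex : ∀ α : ℕ → Bool, ∃ g : P ≃ₜ P, g '' KK seg (ray α) (rayM α) ⊆ M := fun α =>
    hun _ ⟨(dbl α).isCompact, (dbl α).isConnected, chainable_K α⟩
  choose g hg using hex
  choose ε hε0 hε using fun α => eps_exists (g α)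
  have : CompactSpace (Metric.closedBall (0 : P) 20) :=
    isCompact_iff_compactSpace.mp (isCompact_closedBall 0 20)
  let H : (ℕ → Bool) → C(Metric.closedBall (0 : P) 20, P) := fun α =>
    ⟨fun x => g α x, (g α).continuous.comp continuous_subtype_val⟩
  obtain ⟨T, hT, hTU⟩ := TopologicalSpace.isOpen_iUnion_countable
    (fun α => Metric.ball (H α) (ε α)) (fun α => Metric.isOpen_ball)
  have hcount : (⋃ α ∈ T, ⋃ m : ℕ, ({β : ℕ → Bool | ∀ i, vv β (1 + i) = vv α (m + i)} ∪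
      {β : ℕ → Bool | ∀ i, vv β (m + i) = vv α (1 + i)})).Countable :=
    hT.biUnion fun α _ => countable_iUnion fun m =>
      (class_countable α 1 m).union (class_countable α m 1)
  have huniv : (Set.univ : Set (ℕ → Bool)) ⊆
      ⋃ α ∈ T, ⋃ m : ℕ, ({β : ℕ → Bool | ∀ i, vv β (1 + i) = vv α (m + i)} ∪
      {β : ℕ → Bool | ∀ i, vv β (m + i) = vv α (1 + i)}) := by
    intro β _
    have hβ : H β ∈ ⋃ α ∈ T, Metric.ball (H α) (ε α) := by
      rw [hTU]
      exact mem_iUnion.mpr ⟨β, Metric.mem_ball_self (hε0 β)⟩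
    obtain ⟨α, hα, hβα⟩ := mem_iUnion₂.mp hβ
    rw [Metric.mem_ball] at hβα
    have hclose : ∀ p ∈ Metric.closedBall (0 : P) 20, dist (g β p) (g α p) < ε α := by
      intro p hp
      exact lt_of_le_of_lt (ContinuousMap.dist_apply_le_dist (f := H β) (g := H α) ⟨p, hp⟩) hβα
    refine mem_iUnion₂.mpr ⟨α, hα, ?_⟩
    rcases pair hM hch α β (g α) (g β) (hg α) (hg β) (hε α) hclose with ⟨m, hm⟩ | ⟨m, hm⟩
    · exact mem_iUnion.mpr ⟨m, Or.inl hm⟩
    · exact mem_iUnion.mpr ⟨m, Or.inr fun i => (hm i).symm⟩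
  have hc : (Set.univ : Set (ℕ → Bool)).Countable := hcount.mono huniv
  rw [Set.countable_univ_iff] at hc
  exact not_countable_bool hc

end

end Pool.Agent.Helper302.Univ
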