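import Pool.Agent.Helper302.Univ.Defs

set_option autoImplicit false

namespace Pool.Agent.Helper302.Univ

open Set Filter Topology

noncomputable section

/-- clamp to `[0,1]` -/
def clamp (u : ℝ) : ℝ := max 0 (min u 1)

/-- piecewise linear interpolation of a sequence, constant for negative times -/
def pl (w : ℕ → ℝ) (t : ℝ) : ℝ :=
  w 0 + ∑ n ∈ Finset.range ⌈t⌉₊, (w (n + 1) - w n) * clamp (t - n)

theorem clamp_nonpos {u : ℝ} (h : u ≤ 0) : clamp u = 0 := by
  unfold clamp; rw [min_eq_left (by linarith)]; exact max_eq_left h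

theorem clamp_ge_one {u : ℝ} (h : 1 ≤ u) : clamp u = 1 := by
  unfold clamp; rw [min_eq_right h]; norm_num

theorem clamp_mid {u : ℝ} (h : 0 ≤ u) (h' : u ≤ 1) : clamp u = u := by
  unfold clamp; rw [min_eq_left h']; exact max_eq_right h

theorem continuous_clamp : Continuous clamp := by
  unfold clamp; fun_prop

theorem pl_eq (w : ℕ → ℝ) (t : ℝ) {N : ℕ} (hN : t ≤ N) :
    pl w t = w 0 + ∑ n ∈ Finset.range N, (w (n + 1) - w n) * clamp (t - n) := by
  unfold pl
  congr 1
  have h1 : ⌈t⌉₊ ≤ N := Nat.ceil_le.mpr hN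
  rw [← Finset.sum_subset (Finset.range_mono h1)]
  intro n _ hn
  simp only [Finset.mem_range, not_lt] at hn
  have h2 : t ≤ (n : ℝ) := by
    calc t ≤ (⌈t⌉₊ : ℝ) := Nat.le_ceil t
      _ ≤ n := by exact_mod_cast hn
  rw [clamp_nonpos (by linarith)]
  ring

theorem continuous_pl (w : ℕ → ℝ) : Continuous (pl w) := by
  rw [continuous_iff_continuousAt]
  intro t
  obtain ⟨N, hN⟩ := exists_nat_gt t
  have h : ∀ᶠ s in 𝓝 t, pl w s = w 0 + ∑ n ∈ Finset.range N, (w (n + 1) - w n) * clamp (s - n) := by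
    filter_upwards [Iio_mem_nhds hN] with s hs
    exact pl_eq w s (le_of_lt hs)
  refine ContinuousAt.congr ?_ (h.mono fun _ hs => hs.symm)
  refine Continuous.continuousAt ?_
  refine continuous_const.add (continuous_finset_sum _ fun n _ => ?_)
  exact continuous_const.mul (continuous_clamp.comp (continuous_id.sub continuous_const))

theorem pl_on (w : ℕ → ℝ) (n : ℕ) {t : ℝ} (h : (n : ℝ) ≤ t) (h' : t ≤ n + 1) :
    pl w t = w n + (w (n + 1) - w n) * (t - n) := by
  have h1 : pl w t = w 0 + ∑ m ∈ Finset.range (n + 1), (w (m + 1) - w m) * clamp (t - m) :=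
    pl_eq w t (by push_cast; exact h')
  rw [h1, Finset.sum_range_succ]
  have h2 : ∑ m ∈ Finset.range n, (w (m + 1) - w m) * clamp (t - m) = w n - w 0 := by
    rw [← Finset.sum_range_sub]
    refine Finset.sum_congr rfl fun m hm => ?_
    have h3 : m + 1 ≤ n := Finset.mem_range.mp hm
    have h4 : (m : ℝ) + 1 ≤ n := by exact_mod_cast h3
    rw [clamp_ge_one (by linarith), mul_one]
  rw [h2, clamp_mid (by linarith) (by linarith)]
  ring

theorem pl_nat (w : ℕ → ℝ) (n : ℕ) : pl w n = w n := by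
  rw [pl_on w n le_rfl (by linarith)]; ring

/-- bits: even positions are always `true`, odd positions carry the code -/
def bit (α : ℕ → Bool) (k : ℕ) : Bool := if k % 2 = 0 then true else α (k / 2)

/-- the turning values -/
def vv (α : ℕ → Bool) (i : ℕ) : ℕ :=
  if i % 10 = 0 then 0
  else if i % 10 = 1 then 4
  else if i % 10 = 2 then 2
  else if i % 10 = 3 then 7
  else if i % 10 = 4 then 5
  else if i % 10 = 5 then (if bit α (i / 10) then 10 else 9)
  else if i % 10 = 6 then 6
  else if i % 10 = 7 then 8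
  else if i % 10 = 8 then 1
  else 3

/-- depth of the strand `i` -/
def dep (i : ℕ) : ℕ :=
  10 * (i / 10) +
  (if i % 10 = 0 then 1
  else if i % 10 = 1 then 4
  else if i % 10 = 2 then 5
  else if i % 10 = 3 then 6
  else if i % 10 = 4 then 9
  else if i % 10 = 5 then 18
  else if i % 10 = 6 then 17
  else if i % 10 = 7 then 10
  else if i % 10 = 8 then 3
  else 2)

def xs (α : ℕ → Bool) (n : ℕ) : ℝ := (vv α ((n + 1) / 2) : ℝ)

def ys (n : ℕ) : ℝ := 1 / (dep (n / 2) : ℝ)

/-- upper ray, lower ray and the limit segment -/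
def ray (α : ℕ → Bool) (t : ℝ) : P := !₂[pl (xs α) t, pl ys t]

def rayM (α : ℕ → Bool) (t : ℝ) : P := !₂[pl (xs α) t, - pl ys t]

def seg (t : ℝ) : P := !₂[t, 0]

end

end Pool.Agent.Helper302.Univ
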