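import Pool.Agent.Helper302.Univ.Geo

set_option autoImplicit false

namespace Pool.Agent.Helper302.Univ

open Set Filter Topology

noncomputable section

theorem tabR (α : ℕ → Bool) (i : ℕ) : ∃ a : ℕ,
    (i = 10 * a ∧ dep i = 10 * a + 1 ∧ dep (i + 1) = 10 * a + 4 ∧ vv α i = 0 ∧ vv α (i + 1) = 4) ∨
    (i = 10 * a + 1 ∧ dep i = 10 * a + 4 ∧ dep (i + 1) = 10 * a + 5 ∧ vv α i = 4 ∧ vv α (i + 1) = 2) ∨
    (i = 10 * a + 2 ∧ dep i = 10 * a + 5 ∧ dep (i + 1) = 10 * a + 6 ∧ vv α i = 2 ∧ vv α (i + 1) = 7) ∨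
    (i = 10 * a + 3 ∧ dep i = 10 * a + 6 ∧ dep (i + 1) = 10 * a + 9 ∧ vv α i = 7 ∧ vv α (i + 1) = 5) ∨
    (i = 10 * a + 4 ∧ dep i = 10 * a + 9 ∧ dep (i + 1) = 10 * a + 18 ∧ vv α i = 5 ∧
      9 ≤ vv α (i + 1) ∧ vv α (i + 1) ≤ 10) ∨
    (i = 10 * a + 5 ∧ dep i = 10 * a + 18 ∧ dep (i + 1) = 10 * a + 17 ∧ 9 ≤ vv α i ∧ vv α i ≤ 10 ∧
      vv α (i + 1) = 6) ∨
    (i = 10 * a + 6 ∧ dep i = 10 * a + 17 ∧ dep (i + 1) = 10 * a + 10 ∧ vv α i = 6 ∧ vv α (i + 1) = 8) ∨
    (i = 10 * a + 7 ∧ dep i = 10 * a + 10 ∧ dep (i + 1) = 10 * a + 3 ∧ vv α i = 8 ∧ vv α (i + 1) = 1) ∨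
    (i = 10 * a + 8 ∧ dep i = 10 * a + 3 ∧ dep (i + 1) = 10 * a + 2 ∧ vv α i = 1 ∧ vv α (i + 1) = 3) ∨
    (i = 10 * a + 9 ∧ dep i = 10 * a + 2 ∧ dep (i + 1) = 10 * a + 11 ∧ vv α i = 3 ∧ vv α (i + 1) = 0) := by
  have hr : i % 10 < 10 := Nat.mod_lt _ (by norm_num)
  have hi : i = 10 * (i / 10) + i % 10 := by omega
  refine ⟨i / 10, ?_⟩
  generalize i / 10 = a at hi
  generalize i % 10 = r at hi hr
  subst hi
  interval_cases r
  · refine Or.inl ⟨by omega, ?_, ?_, ?_, ?_⟩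
    · unfold dep
      rw [show (10 * a + 0) / 10 = a by omega, show (10 * a + 0) % 10 = 0 by omega]; rfl
    · unfold dep
      rw [show (10 * a + 0 + 1) / 10 = a by omega, show (10 * a + 0 + 1) % 10 = 1 by omega]; rfl
    · unfold vv
      rw [show (10 * a + 0) % 10 = 0 by omega]; rfl
    · unfold vv
      rw [show (10 * a + 0 + 1) % 10 = 1 by omega]; rfl
  · refine Or.inr (Or.inl ⟨by omega, ?_, ?_, ?_, ?_⟩)
    · unfold dep
      rw [show (10 * a + 1) / 10 = a by omega, show (10 * a + 1) % 10 = 1 by omega]; rfl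
    · unfold dep
      rw [show (10 * a + 1 + 1) / 10 = a by omega, show (10 * a + 1 + 1) % 10 = 2 by omega]; rfl
    · unfold vv
      rw [show (10 * a + 1) % 10 = 1 by omega]; rfl
    · unfold vv
      rw [show (10 * a + 1 + 1) % 10 = 2 by omega]; rfl
  · refine Or.inr (Or.inr (Or.inl ⟨by omega, ?_, ?_, ?_, ?_⟩))
    · unfold dep
      rw [show (10 * a + 2) / 10 = a by omega, show (10 * a + 2) % 10 = 2 by omega]; rfl
    · unfold dep
      rw [show (10 * a + 2 + 1) / 10 = a by omega, show (10 * a + 2 + 1) % 10 = 3 by omega]; rfl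
    · unfold vv
      rw [show (10 * a + 2) % 10 = 2 by omega]; rfl
    · unfold vv
      rw [show (10 * a + 2 + 1) % 10 = 3 by omega]; rfl
  · refine Or.inr (Or.inr (Or.inr (Or.inl ⟨by omega, ?_, ?_, ?_, ?_⟩)))
    · unfold dep
      rw [show (10 * a + 3) / 10 = a by omega, show (10 * a + 3) % 10 = 3 by omega]; rfl
    · unfold dep
      rw [show (10 * a + 3 + 1) / 10 = a by omega, show (10 * a + 3 + 1) % 10 = 4 by omega]; rfl
    · unfold vv
      rw [show (10 * a + 3) % 10 = 3 by omega]; rfl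
    · unfold vv
      rw [show (10 * a + 3 + 1) % 10 = 4 by omega]; rfl
  · refine Or.inr (Or.inr (Or.inr (Or.inr (Or.inl ⟨by omega, ?_, ?_, ?_, ?_, ?_⟩))))
    · unfold dep
      rw [show (10 * a + 4) / 10 = a by omega, show (10 * a + 4) % 10 = 4 by omega]; rfl
    · unfold dep
      rw [show (10 * a + 4 + 1) / 10 = a by omega, show (10 * a + 4 + 1) % 10 = 5 by omega]; rfl
    · unfold vv
      rw [show (10 * a + 4) % 10 = 4 by omega]; rfl
    · unfold vv
      rw [show (10 * a + 4 + 1) % 10 = 5 by omega]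
      simp only [show ((5 : ℕ) = 0) = False by simp, show ((5 : ℕ) = 1) = False by simp,
        show ((5 : ℕ) = 2) = False by simp, show ((5 : ℕ) = 3) = False by simp,
        show ((5 : ℕ) = 4) = False by simp, if_false, if_true]
      split_ifs <;> norm_num
    · unfold vv
      rw [show (10 * a + 4 + 1) % 10 = 5 by omega]
      simp only [show ((5 : ℕ) = 0) = False by simp, show ((5 : ℕ) = 1) = False by simp,
        show ((5 : ℕ) = 2) = False by simp, show ((5 : ℕ) = 3) = False by simp,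
        show ((5 : ℕ) = 4) = False by simp, if_false, if_true]
      split_ifs <;> norm_num
  · refine Or.inr (Or.inr (Or.inr (Or.inr (Or.inr (Or.inl ⟨by omega, ?_, ?_, ?_, ?_, ?_⟩)))))
    · unfold dep
      rw [show (10 * a + 5) / 10 = a by omega, show (10 * a + 5) % 10 = 5 by omega]; rfl
    · unfold dep
      rw [show (10 * a + 5 + 1) / 10 = a by omega, show (10 * a + 5 + 1) % 10 = 6 by omega]; rfl
    · unfold vv
      rw [show (10 * a + 5) % 10 = 5 by omega]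
      simp only [show ((5 : ℕ) = 0) = False by simp, show ((5 : ℕ) = 1) = False by simp,
        show ((5 : ℕ) = 2) = False by simp, show ((5 : ℕ) = 3) = False by simp,
        show ((5 : ℕ) = 4) = False by simp, if_false, if_true]
      split_ifs <;> norm_num
    · unfold vv
      rw [show (10 * a + 5) % 10 = 5 by omega]
      simp only [show ((5 : ℕ) = 0) = False by simp, show ((5 : ℕ) = 1) = False by simp,
        show ((5 : ℕ) = 2) = False by simp, show ((5 : ℕ) = 3) = False by simp,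
        show ((5 : ℕ) = 4) = False by simp, if_false, if_true]
      split_ifs <;> norm_num
    · unfold vv
      rw [show (10 * a + 5 + 1) % 10 = 6 by omega]; rfl
  · refine Or.inr (Or.inr (Or.inr (Or.inr (Or.inr (Or.inr (Or.inl ⟨by omega, ?_, ?_, ?_, ?_⟩))))))
    · unfold dep
      rw [show (10 * a + 6) / 10 = a by omega, show (10 * a + 6) % 10 = 6 by omega]; rfl
    · unfold dep
      rw [show (10 * a + 6 + 1) / 10 = a by omega, show (10 * a + 6 + 1) % 10 = 7 by omega]; rfl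
    · unfold vv
      rw [show (10 * a + 6) % 10 = 6 by omega]; rfl
    · unfold vv
      rw [show (10 * a + 6 + 1) % 10 = 7 by omega]; rfl
  · refine Or.inr (Or.inr (Or.inr (Or.inr (Or.inr (Or.inr (Or.inr (Or.inl ⟨by omega, ?_, ?_, ?_, ?_⟩)))))))
    · unfold dep
      rw [show (10 * a + 7) / 10 = a by omega, show (10 * a + 7) % 10 = 7 by omega]; rfl
    · unfold dep
      rw [show (10 * a + 7 + 1) / 10 = a by omega, show (10 * a + 7 + 1) % 10 = 8 by omega]; rfl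
    · unfold vv
      rw [show (10 * a + 7) % 10 = 7 by omega]; rfl
    · unfold vv
      rw [show (10 * a + 7 + 1) % 10 = 8 by omega]; rfl
  · refine Or.inr (Or.inr (Or.inr (Or.inr (Or.inr (Or.inr (Or.inr (Or.inr (Or.inl
      ⟨by omega, ?_, ?_, ?_, ?_⟩))))))))
    · unfold dep
      rw [show (10 * a + 8) / 10 = a by omega, show (10 * a + 8) % 10 = 8 by omega]; rfl
    · unfold dep
      rw [show (10 * a + 8 + 1) / 10 = a by omega, show (10 * a + 8 + 1) % 10 = 9 by omega]; rfl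
    · unfold vv
      rw [show (10 * a + 8) % 10 = 8 by omega]; rfl
    · unfold vv
      rw [show (10 * a + 8 + 1) % 10 = 9 by omega]; rfl
  · refine Or.inr (Or.inr (Or.inr (Or.inr (Or.inr (Or.inr (Or.inr (Or.inr (Or.inr
      ⟨by omega, ?_, ?_, ?_, ?_⟩))))))))
    · unfold dep
      rw [show (10 * a + 9) / 10 = a by omega, show (10 * a + 9) % 10 = 9 by omega]; rfl
    · unfold dep
      rw [show (10 * a + 9 + 1) / 10 = a + 1 by omega, show (10 * a + 9 + 1) % 10 = 0 by omega]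
      simp only [if_true]; ring
    · unfold vv
      rw [show (10 * a + 9) % 10 = 9 by omega]; rfl
    · unfold vv
      rw [show (10 * a + 9 + 1) % 10 = 0 by omega]; rfl

theorem dep_posR (i : ℕ) : 1 ≤ dep i := by
  obtain ⟨a, h⟩ := tabR (fun _ => true) i
  omega

theorem dep_injR {i j : ℕ} (h : dep i = dep j) : i = j := by
  obtain ⟨a, ha⟩ := tabR (fun _ => true) i
  obtain ⟨b, hb⟩ := tabR (fun _ => true) j
  rcases ha with ha | ha | ha | ha | ha | ha | ha | ha | ha | ha <;>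
  rcases hb with hb | hb | hb | hb | hb | hb | hb | hb | hb | hb <;> omega

theorem dep_neR (i : ℕ) : dep i ≠ dep (i + 1) := by
  intro h
  have := dep_injR h
  omega

theorem vv_neR (α : ℕ → Bool) (i : ℕ) : vv α i ≠ vv α (i + 1) := by
  obtain ⟨a, ha⟩ := tabR α i
  rcases ha with ha | ha | ha | ha | ha | ha | ha | ha | ha | ha <;> omega

theorem key1R (α : ℕ → Bool) (i j : ℕ)
    (h1 : (dep j < dep i ∧ dep i < dep (j + 1)) ∨ (dep (j + 1) < dep i ∧ dep i < dep j))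
    (h2 : (vv α i ≤ vv α (j + 1) ∧ vv α (j + 1) < vv α (i + 1)) ∨
      (vv α (i + 1) < vv α (j + 1) ∧ vv α (j + 1) ≤ vv α i)) : False := by
  obtain ⟨a, ha⟩ := tabR α i
  obtain ⟨b, hb⟩ := tabR α j
  rcases ha with ha | ha | ha | ha | ha | ha | ha | ha | ha | ha <;>
  rcases hb with hb | hb | hb | hb | hb | hb | hb | hb | hb | hb <;> omega

theorem key2R (α : ℕ → Bool) (i j : ℕ) (hij : i ≠ j) (h : vv α (i + 1) = vv α (j + 1)) :
    (dep i < dep j ∧ dep i < dep (j + 1) ∧ dep (i + 1) < dep j ∧ dep (i + 1) < dep (j + 1)) ∨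
    (dep j < dep i ∧ dep j < dep (i + 1) ∧ dep (j + 1) < dep i ∧ dep (j + 1) < dep (i + 1)) := by
  obtain ⟨a, ha⟩ := tabR α i
  obtain ⟨b, hb⟩ := tabR α j
  rcases ha with ha | ha | ha | ha | ha | ha | ha | ha | ha | ha <;>
  rcases hb with hb | hb | hb | hb | hb | hb | hb | hb | hb | hb <;> omega

theorem formR (α : ℕ → Bool) {s : ℝ} (hs : 0 ≤ s) : ∃ i : ℕ,
    (∃ w : ℝ, 0 ≤ w ∧ w < 1 ∧ s = 2 * (i : ℝ) + w ∧
      pl (xs α) s = (vv α i : ℝ) + ((vv α (i + 1) : ℝ) - (vv α i : ℝ)) * w ∧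
      pl ys s = 1 / (dep i : ℝ)) ∨
    (∃ w : ℝ, 0 ≤ w ∧ w < 1 ∧ s = 2 * (i : ℝ) + 1 + w ∧
      pl (xs α) s = (vv α (i + 1) : ℝ) ∧
      pl ys s = 1 / (dep i : ℝ) + (1 / (dep (i + 1) : ℝ) - 1 / (dep i : ℝ)) * w) := by
  have h1 : (⌊s⌋₊ : ℝ) ≤ s := Nat.floor_le hs
  have h2 : s < (⌊s⌋₊ : ℝ) + 1 := Nat.lt_floor_add_one s
  generalize ⌊s⌋₊ = n at h1 h2
  rcases Nat.even_or_odd' n with ⟨i, hi | hi⟩
  · refine ⟨i, Or.inl ⟨s - 2 * (i : ℝ), ?_, ?_, by ring, ?_, ?_⟩⟩
    · subst hi; push_cast at h1; linarith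
    · subst hi; push_cast at h2; linarith
    · rw [pl_on (xs α) n h1 h2.le]
      subst hi
      have e1 : xs α (2 * i) = (vv α i : ℝ) := by
        unfold xs; rw [show (2 * i + 1) / 2 = i by omega]
      have e2 : xs α (2 * i + 1) = (vv α (i + 1) : ℝ) := by
        unfold xs; rw [show (2 * i + 1 + 1) / 2 = i + 1 by omega]
      rw [e1, e2]; push_cast; ring
    · rw [pl_on ys n h1 h2.le]
      subst hi
      have e1 : ys (2 * i) = 1 / (dep i : ℝ) := by
        unfold ys; rw [show (2 * i) / 2 = i by omega]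
      have e2 : ys (2 * i + 1) = 1 / (dep i : ℝ) := by
        unfold ys; rw [show (2 * i + 1) / 2 = i by omega]
      rw [e1, e2]; ring
  · refine ⟨i, Or.inr ⟨s - (2 * (i : ℝ) + 1), ?_, ?_, by ring, ?_, ?_⟩⟩
    · subst hi; push_cast at h1; linarith
    · subst hi; push_cast at h2; linarith
    · rw [pl_on (xs α) n h1 h2.le]
      subst hi
      have e1 : xs α (2 * i + 1) = (vv α (i + 1) : ℝ) := by
        unfold xs; rw [show (2 * i + 1 + 1) / 2 = i + 1 by omega]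
      have e2 : xs α (2 * i + 1 + 1) = (vv α (i + 1) : ℝ) := by
        unfold xs; rw [show (2 * i + 1 + 1 + 1) / 2 = i + 1 by omega]
      rw [e1, e2]; ring
    · rw [pl_on ys n h1 h2.le]
      subst hi
      have e1 : ys (2 * i + 1) = 1 / (dep i : ℝ) := by
        unfold ys; rw [show (2 * i + 1) / 2 = i by omega]
      have e2 : ys (2 * i + 1 + 1) = 1 / (dep (i + 1) : ℝ) := by
        unfold ys; rw [show (2 * i + 1 + 1) / 2 = i + 1 by omega]
      rw [e1, e2]; push_cast; ring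

theorem betwR {a b c w : ℝ} (hab : a ≠ b) (h0 : 0 ≤ w) (h1 : w < 1) (h : c = a + (b - a) * w) :
    (a ≤ c ∧ c < b) ∨ (b < c ∧ c ≤ a) := by
  rcases lt_or_gt_of_ne hab with hlt | hlt
  · left
    constructor
    · rw [h]; nlinarith [mul_nonneg (sub_nonneg.mpr hlt.le) h0]
    · rw [h]; nlinarith [mul_pos (sub_pos.mpr hlt) (sub_pos.mpr h1)]
  · right
    constructor
    · rw [h]; nlinarith [mul_pos (sub_pos.mpr hlt) (sub_pos.mpr h1)]
    · rw [h]; nlinarith [mul_nonneg (sub_nonneg.mpr hlt.le) h0]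

theorem inv_leR {m n : ℕ} (hm : 1 ≤ m) (hn : 1 ≤ n) (h : (1 / (m : ℝ)) ≤ 1 / (n : ℝ)) : n ≤ m := by
  have hm' : (0 : ℝ) < m := by exact_mod_cast hm
  have hn' : (0 : ℝ) < n := by exact_mod_cast hn
  have := (one_div_le_one_div hm' hn').mp h
  exact_mod_cast this

theorem inv_ltR {m n : ℕ} (hm : 1 ≤ m) (hn : 1 ≤ n) (h : (1 / (m : ℝ)) < 1 / (n : ℝ)) : n < m := by
  have hm' : (0 : ℝ) < m := by exact_mod_cast hm
  have hn' : (0 : ℝ) < n := by exact_mod_cast hn
  have := (one_div_lt_one_div hm' hn').mp h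
  exact_mod_cast this

theorem inv_neR {m n : ℕ} (hm : 1 ≤ m) (hn : 1 ≤ n) (h : m ≠ n) : (1 / (m : ℝ)) ≠ 1 / (n : ℝ) := by
  intro h'
  exact h (le_antisymm (inv_leR hn hm h'.ge) (inv_leR hm hn h'.le))

theorem mixR (α : ℕ → Bool) (i j : ℕ) (w u : ℝ) (hw : 0 ≤ w) (hw1 : w < 1) (hu : 0 ≤ u)
    (hu1 : u < 1)
    (hx : (vv α (j + 1) : ℝ) = (vv α i : ℝ) + ((vv α (i + 1) : ℝ) - (vv α i : ℝ)) * w)
    (hy : 1 / (dep i : ℝ) = 1 / (dep j : ℝ) + (1 / (dep (j + 1) : ℝ) - 1 / (dep j : ℝ)) * u) :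
    False := by
  have hx' := betwR (by exact_mod_cast vv_neR α i) hw hw1 hx
  have hy' := betwR (inv_neR (dep_posR _) (dep_posR _) (dep_neR j)) hu hu1 hy
  have hX : (vv α i ≤ vv α (j + 1) ∧ vv α (j + 1) < vv α (i + 1)) ∨
      (vv α (i + 1) < vv α (j + 1) ∧ vv α (j + 1) ≤ vv α i) := by exact_mod_cast hx'
  have hY : (dep i ≤ dep j ∧ dep (j + 1) < dep i) ∨ (dep i < dep (j + 1) ∧ dep j ≤ dep i) := by
    rcases hy' with ⟨h1, h2⟩ | ⟨h1, h2⟩
    · exact Or.inl ⟨inv_leR (dep_posR _) (dep_posR _) h1, inv_ltR (dep_posR _) (dep_posR _) h2⟩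
    · exact Or.inr ⟨inv_ltR (dep_posR _) (dep_posR _) h1, inv_leR (dep_posR _) (dep_posR _) h2⟩
  by_cases hd : dep i = dep j
  · have := dep_injR hd
    subst this
    rcases hX with ⟨_, h⟩ | ⟨h, _⟩
    · exact lt_irrefl _ h
    · exact lt_irrefl _ h
  · exact key1R α i j (by omega) hX

/-! TARGET: (was a job) -/

theorem ray_inj (α : ℕ → Bool) {s t : ℝ} (hs : 0 ≤ s) (ht : 0 ≤ t)
    (hx : pl (xs α) s = pl (xs α) t) (hy : pl ys s = pl ys t) : s = t := by
  obtain ⟨i, ⟨w, hw, hw1, hsw, hxs, hys⟩ | ⟨w, hw, hw1, hsw, hxs, hys⟩⟩ := formR α hs <;>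
  obtain ⟨j, ⟨u, hu, hu1, htu, hxt, hyt⟩ | ⟨u, hu, hu1, htu, hxt, hyt⟩⟩ := formR α ht
  · -- H-H
    rw [hys, hyt] at hy
    have hd : dep i = dep j :=
      le_antisymm (inv_leR (dep_posR _) (dep_posR _) hy.ge) (inv_leR (dep_posR _) (dep_posR _) hy.le)
    have hij := dep_injR hd
    subst hij
    rw [hxs, hxt] at hx
    have hne : ((vv α (i + 1) : ℝ) - (vv α i : ℝ)) ≠ 0 := by
      intro h
      apply vv_neR α i
      have : (vv α (i + 1) : ℝ) = (vv α i : ℝ) := by linarith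
      exact_mod_cast this.symm
    have : w = u := by
      apply mul_left_cancel₀ hne
      linarith
    rw [hsw, htu, this]
  · -- H-V
    exfalso
    rw [hxs, hxt] at hx
    rw [hys, hyt] at hy
    exact mixR α i j w u hw hw1 hu hu1 hx.symm hy
  · -- V-H
    exfalso
    rw [hxs, hxt] at hx
    rw [hys, hyt] at hy
    exact mixR α j i u w hu hu1 hw hw1 hx hy.symm
  · -- V-V
    rw [hxs, hxt] at hx
    rw [hys, hyt] at hy
    have hvv : vv α (i + 1) = vv α (j + 1) := by exact_mod_cast hx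
    by_cases hij : i = j
    · subst hij
      have hne : (1 / (dep (i + 1) : ℝ) - 1 / (dep i : ℝ)) ≠ 0 := by
        intro h
        exact inv_neR (dep_posR _) (dep_posR _) (dep_neR i) (by linarith)
      have : w = u := by
        apply mul_left_cancel₀ hne
        linarith
      rw [hsw, htu, this]
    · exfalso
      have h1 := betwR (inv_neR (dep_posR _) (dep_posR _) (dep_neR i)) hw hw1 rfl
      have h2 := betwR (inv_neR (dep_posR _) (dep_posR _) (dep_neR j)) hu hu1 rfl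
      rw [← hy] at h2
      generalize 1 / (dep i : ℝ) + (1 / (dep (i + 1) : ℝ) - 1 / (dep i : ℝ)) * w = c at h1 h2
      have tr : ∀ m n : ℕ, 1 ≤ m → 1 ≤ n → 1 / (m : ℝ) ≤ c → c ≤ 1 / (n : ℝ) → n ≤ m :=
        fun m n hm hn h1 h2 => inv_leR hm hn (h1.trans h2)
      have p1 := dep_posR i
      have p2 := dep_posR (i + 1)
      have p3 := dep_posR j
      have p4 := dep_posR (j + 1)
      have key := key2R α i j hij hvv
      rcases h1 with ⟨a1, a2⟩ | ⟨a1, a2⟩ <;> rcases h2 with ⟨b1, b2⟩ | ⟨b1, b2⟩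
      · have q1 := tr _ _ p1 p4 a1 b2.le
        have q2 := tr _ _ p3 p2 b1 a2.le
        omega
      · have q1 := tr _ _ p1 p3 a1 b2
        have q2 := tr _ _ p4 p2 b1.le a2.le
        omega
      · have q1 := tr _ _ p2 p4 a1.le b2.le
        have q2 := tr _ _ p3 p1 b1 a2
        omega
      · have q1 := tr _ _ p2 p3 a1.le b2
        have q2 := tr _ _ p4 p1 b1.le a2
        omega

end

end Pool.Agent.Helper302.Univ
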