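import Pool.Agent.Helper302.Univ.Ray
import Pool.Agent.Helper302.Univ.Dich

set_option autoImplicit false

namespace Pool.Agent.Helper302.Univ

open Set Filter Topology

noncomputable section

theorem pdist (p q : P) : dist p q ≤ |p 0 - q 0| + |p 1 - q 1| := by
  rw [EuclideanSpace.dist_eq, Fin.sum_univ_two, Real.dist_eq, Real.dist_eq]
  rw [Real.sqrt_le_left (by positivity)]
  nlinarith [abs_nonneg (p 0 - q 0), abs_nonneg (p 1 - q 1)]

theorem coord_le (p q : P) (i : Fin 2) : |p i - q i| ≤ dist p q := by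
  rw [EuclideanSpace.dist_eq, ← Real.dist_eq]
  rw [Fin.sum_univ_two]
  apply Real.le_sqrt_of_sq_le
  fin_cases i
  · simp only [Fin.zero_eta, Fin.isValue]; nlinarith [sq_nonneg (dist (p 1) (q 1))]
  · simp only [Fin.mk_one, Fin.isValue]; nlinarith [sq_nonneg (dist (p 0) (q 0))]

theorem mk_continuous {f g : ℝ → ℝ} (hf : Continuous f) (hg : Continuous g) :
    Continuous (fun t => (!₂[f t, g t] : P)) := by
  refine (PiLp.continuous_toLp 2 _).comp ?_
  refine continuous_pi fun i => ?_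
  fin_cases i
  · exact hf
  · exact hg

@[simp] theorem ray_zero (α : ℕ → Bool) (t : ℝ) : ray α t 0 = pl (xs α) t := rfl
@[simp] theorem ray_one (α : ℕ → Bool) (t : ℝ) : ray α t 1 = pl ys t := rfl
@[simp] theorem rayM_zero (α : ℕ → Bool) (t : ℝ) : rayM α t 0 = pl (xs α) t := rfl
@[simp] theorem rayM_one (α : ℕ → Bool) (t : ℝ) : rayM α t 1 = - pl ys t := rfl
@[simp] theorem seg_zero (t : ℝ) : seg t 0 = t := rfl
@[simp] theorem seg_one (t : ℝ) : seg t 1 = 0 := rfl

/-- common construction of the two arms: `ε = ±1` -/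
theorem arm_of (α : ℕ → Bool) (r : ℝ → P) (e : ℝ) (he : |e| = 1)
    (h0 : ∀ t, r t 0 = pl (xs α) t) (h1 : ∀ t, r t 1 = e * pl ys t) (hc : Continuous r) :
    Arm (seg '' Icc 0 10) r where
  cont := hc
  inj := by
    intro s hs t ht hst
    have e1 : r s 0 = r t 0 := by rw [hst]
    have e2 : r s 1 = r t 1 := by rw [hst]
    rw [h0, h0] at e1
    rw [h1, h1] at e2
    have hne : e ≠ 0 := by intro h; rw [h] at he; simp at he
    exact ray_inj α hs ht e1 (mul_left_cancel₀ hne e2)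
  disj := by
    rintro t ht ⟨x, _, hx⟩
    have e2 : seg x 1 = r t 1 := by rw [hx]
    rw [seg_one, h1] at e2
    have hne : e ≠ 0 := by intro h; rw [h] at he; simp at he
    have := pl_ys_pos ht
    rcases mul_eq_zero.mp e2.symm with h | h
    · exact hne h
    · linarith
  lim := by
    intro O hO hJ
    have hJc : IsCompact (seg '' Icc (0 : ℝ) 10) :=
      isCompact_Icc.image (mk_continuous continuous_id continuous_const)
    obtain ⟨δ, hδ, hδO⟩ := hJc.exists_thickening_subset_open hO hJ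
    obtain ⟨N, hN, hN'⟩ := pl_ys_small hδ
    refine ⟨N, hN, fun t ht => hδO ?_⟩
    rw [Metric.mem_thickening_iff]
    refine ⟨seg (pl (xs α) t), ⟨_, pl_xs_mem α (hN.trans ht), rfl⟩, ?_⟩
    refine lt_of_le_of_lt (pdist _ _) ?_
    rw [h0, h1, seg_zero, seg_one, sub_self, abs_zero, zero_add, sub_zero, abs_mul, he, one_mul,
      abs_of_pos (pl_ys_pos (hN.trans ht))]
    exact hN' t ht
  clus := by
    rintro _ ⟨c, hc', rfl⟩ O hO hp N
    obtain ⟨δ, hδ, hδO⟩ := Metric.isOpen_iff.mp hO _ hp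
    obtain ⟨N', hN0, hN'⟩ := pl_ys_small hδ
    obtain ⟨t, ht, ht0, htc⟩ := visit α hc' (max N N')
    refine ⟨t, (le_max_left _ _).trans ht, ht0, hδO ?_⟩
    rw [Metric.mem_ball]
    refine lt_of_le_of_lt (pdist _ _) ?_
    rw [h0, h1, seg_zero, seg_one, htc, sub_self, abs_zero, zero_add, sub_zero, abs_mul, he,
      one_mul, abs_of_pos (pl_ys_pos ht0)]
    exact hN' t ((le_max_right _ _).trans ht)

theorem dbl (α : ℕ → Bool) : Dbl seg (ray α) (rayM α) where
  jc := mk_continuous continuous_id continuous_const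
  ji := by
    intro a _ b _ h
    have : seg a 0 = seg b 0 := by rw [h]
    exact this
  p := arm_of α _ 1 (by norm_num) (fun _ => rfl) (fun t => by rw [ray_one, one_mul])
    (mk_continuous (continuous_pl _) (continuous_pl _))
  m := arm_of α _ (-1) (by norm_num) (fun _ => rfl) (fun t => by rw [rayM_one, neg_one_mul])
    (mk_continuous (continuous_pl _) (continuous_pl _).neg)
  dis := by
    intro s t hs ht h
    have e1 : ray α s 1 = rayM α t 1 := by rw [h]
    rw [ray_one, rayM_one] at e1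
    have := pl_ys_pos hs
    have := pl_ys_pos ht
    linarith

theorem chainable_K (α : ℕ → Bool) : Chainable (KK seg (ray α) (rayM α)) :=
  chain_ray (dbl α) (fun _ ht => pl_xs_mem α ht) (fun _ ht => pl_xs_mem α ht)
    (fun N => visit_ten α N) (fun N => visit_zero α N)

/-- strand data -/
theorem strand (α : ℕ → Bool) (k : ℕ) :
    (dep (10 * k) = 10 * k + 1 ∧ vv α (10 * k) = 0 ∧ vv α (10 * k + 1) = 4) ∧
    (dep (10 * k + 1) = 10 * k + 4 ∧ vv α (10 * k + 1) = 4 ∧ vv α (10 * k + 1 + 1) = 2) ∧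
    (dep (10 * k + 2) = 10 * k + 5 ∧ vv α (10 * k + 2) = 2 ∧ vv α (10 * k + 2 + 1) = 7) ∧
    (dep (10 * k + 6) = 10 * k + 17 ∧ vv α (10 * k + 6) = 6 ∧ vv α (10 * k + 6 + 1) = 8) ∧
    (dep (10 * k + 7) = 10 * k + 10 ∧ vv α (10 * k + 7) = 8 ∧ vv α (10 * k + 7 + 1) = 1) ∧
    (dep (10 * k + 8) = 10 * k + 3 ∧ vv α (10 * k + 8) = 1 ∧ vv α (10 * k + 8 + 1) = 3) ∧
    (dep (10 * k + 9) = 10 * k + 2 ∧ vv α (10 * k + 9) = 3 ∧ vv α (10 * k + 9 + 1) = 0) := by
  have h0 := tabR α (10 * k)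
  have h1 := tabR α (10 * k + 1)
  have h2 := tabR α (10 * k + 2)
  have h6 := tabR α (10 * k + 6)
  have h7 := tabR α (10 * k + 7)
  have h8 := tabR α (10 * k + 8)
  have h9 := tabR α (10 * k + 9)
  refine ⟨?_, ?_, ?_, ?_, ?_, ?_, ?_⟩
  · obtain ⟨a, h⟩ := h0; clear h1 h2 h6 h7 h8 h9; omega
  · obtain ⟨a, h⟩ := h1; clear h0 h2 h6 h7 h8 h9; omega
  · obtain ⟨a, h⟩ := h2; clear h1 h0 h6 h7 h8 h9; omega
  · obtain ⟨a, h⟩ := h6; clear h1 h2 h0 h7 h8 h9; omega
  · obtain ⟨a, h⟩ := h7; clear h1 h2 h6 h0 h8 h9; omega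
  · obtain ⟨a, h⟩ := h8; clear h1 h2 h6 h7 h0 h9; omega
  · obtain ⟨a, h⟩ := h9; clear h1 h2 h6 h7 h8 h0; omega

end

end Pool.Agent.Helper302.Univ
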