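import Mathlib

set_option autoImplicit false

namespace Pool.Agent.Helper302.Univ

open Set Filter Topology

noncomputable def eS (k : ℕ) : ℝ := (-1) ^ (k + 1)

theorem eS_succ (k : ℕ) : eS (k + 1) = - eS k := by
  unfold eS; rw [pow_succ]; ring

theorem eS_cases (k : ℕ) : eS k = 1 ∨ eS k = -1 := by
  unfold eS; exact neg_one_pow_eq_or ℝ (k + 1)

theorem eS_mod {m k : ℕ} (h : m % 2 = k % 2) : eS m = eS k := by
  unfold eS
  rw [neg_one_pow_eq_pow_mod_two, neg_one_pow_eq_pow_mod_two (n := k + 1)]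
  congr 1
  omega

theorem mono_of {x : ℝ → ℝ}
    (A : ∀ k : ℕ, AntitoneOn (fun s => eS k * x s) (Icc (2 * k : ℝ) (2 * k + 2))) (j : ℕ) :
    MonotoneOn (fun s => eS (j + 1) * x s) (Icc (2 * j : ℝ) (2 * j + 2)) := by
  intro a ha b hb hab
  have := A j ha hb hab
  simp only [eS_succ] at *
  linarith

theorem close_of {a b e : ℝ} (he : e = 1 ∨ e = -1) (h : |a - b| < 1 / 4) :
    e * a < e * b + 1 / 4 ∧ e * b < e * a + 1 / 4 := by
  rw [abs_lt] at h
  rcases he with rfl | rfl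
  · constructor <;> linarith [h.1, h.2]
  · constructor <;> linarith [h.1, h.2]

theorem peak_le {x : ℝ → ℝ}
    (A : ∀ k : ℕ, AntitoneOn (fun s => eS k * x s) (Icc (2 * k : ℝ) (2 * k + 2))) (j : ℕ)
    {s : ℝ} (h1 : 2 * (j : ℝ) ≤ s) (h2 : s ≤ 2 * j + 4) :
    eS (j + 1) * x s ≤ eS (j + 1) * x (2 * j + 2) := by
  rcases le_total s (2 * j + 2) with h | h
  · exact mono_of A j ⟨h1, h⟩ ⟨by linarith, le_refl _⟩ h
  · have := A (j + 1) (a := 2 * (j : ℝ) + 2) (b := s)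
      ⟨by push_cast; linarith, by push_cast; linarith⟩
      ⟨by push_cast; linarith, by push_cast; linarith⟩ h
    exact this

theorem claim1 {u v : ℕ → ℕ} {x1 x2 : ℝ → ℝ} (c2 : Continuous x2)
    (A1 : ∀ k : ℕ, AntitoneOn (fun s => eS k * x1 s) (Icc (2 * k : ℝ) (2 * k + 2)))
    (A2 : ∀ k : ℕ, AntitoneOn (fun s => eS k * x2 s) (Icc (2 * k : ℝ) (2 * k + 2)))
    (B1 : ∀ k : ℕ, eS k * u (k + 1) + 2 ≤ eS k * u k)
    (v1 : ∀ i : ℕ, x1 (2*i) = u i) (v2 : ∀ i : ℕ, x2 (2*i) = v i)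
    {τ : ℝ → ℝ} (hτ : ContinuousOn τ (Ici 0)) (hm : StrictMonoOn τ (Ici 0))
    (h0 : ∀ s, 0 ≤ s → 0 ≤ τ s)
    (hd : ∀ s, 0 ≤ s → |x1 s - x2 (τ s)| < 1/4) (j : ℕ) :
    ∃ m : ℕ, m % 2 = (j + 1) % 2 ∧ ∃ s : ℝ, 2 * (j : ℝ) < s ∧ s < 2 * j + 4 ∧
      τ s = 2 * m ∧ v m = u (j + 1) := by
  have hj : (0 : ℝ) ≤ j := Nat.cast_nonneg j
  have he := eS_cases (j + 1)
  have hab : τ (2 * j) < τ (2 * j + 4) :=
    hm (by simp only [mem_Ici]; positivity) (by simp only [mem_Ici]; positivity) (by linarith)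
  have hac : τ (2 * j) < τ (2 * j + 2) :=
    hm (by simp only [mem_Ici]; positivity) (by simp only [mem_Ici]; positivity) (by linarith)
  have hcb : τ (2 * j + 2) < τ (2 * j + 4) :=
    hm (by simp only [mem_Ici]; positivity) (by simp only [mem_Ici]; positivity) (by linarith)
  have hx2 : x1 (2 * j + 2) = u (j + 1) := by
    have := v1 (j + 1); push_cast at this; rw [← this]; ring_nf
  have hx0 : x1 (2 * j) = u j := v1 j
  have hx4 : x1 (2 * j + 4) = u (j + 2) := by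
    have := v1 (j + 2); push_cast at this; rw [← this]; ring_nf
  have hb0 := B1 j
  have hb1 := B1 (j + 1)
  have hb0' : eS (j + 1) * u j + 2 ≤ eS (j + 1) * u (j + 1) := by
    rw [eS_succ]; linarith
  obtain ⟨p, hp, hpmax⟩ := (isCompact_Icc (a := τ (2 * j)) (b := τ (2 * j + 4))).exists_isMaxOn
    ⟨_, left_mem_Icc.2 hab.le⟩ (f := fun t => eS (j + 1) * x2 t)
    (continuous_const.mul c2).continuousOn
  have g1 : eS (j + 1) * u (j + 1) - 1 / 4 < eS (j + 1) * x2 p := by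
    have h1 := hpmax (show τ (2 * j + 2) ∈ Icc (τ (2 * j)) (τ (2 * j + 4)) from ⟨hac.le, hcb.le⟩)
    have h2 := (close_of he (hd (2 * j + 2) (by positivity))).1
    simp only [mem_setOf_eq] at h1
    rw [hx2] at h2
    linarith
  have gl : eS (j + 1) * x2 (τ (2 * j)) < eS (j + 1) * u (j + 1) - 7 / 4 := by
    have h2 := (close_of he (hd (2 * j) (by positivity))).2
    rw [hx0] at h2
    linarith
  have gr : eS (j + 1) * x2 (τ (2 * j + 4)) < eS (j + 1) * u (j + 1) - 7 / 4 := by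
    have h2 := (close_of he (hd (2 * j + 4) (by positivity))).2
    rw [hx4] at h2
    have : eS (j + 1) * u (j + 2) + 2 ≤ eS (j + 1) * u (j + 1) := hb1
    linarith
  have hp0 : 0 ≤ p := le_trans (h0 _ (by positivity)) hp.1
  obtain ⟨i, hi⟩ : ∃ i : ℕ, i = ⌊p / 2⌋₊ := ⟨_, rfl⟩
  have hi1 : 2 * (i : ℝ) ≤ p := by
    have := Nat.floor_le (show 0 ≤ p / 2 by positivity)
    rw [← hi] at this; linarith
  have hi2 : p < 2 * i + 2 := by
    have := Nat.lt_floor_add_one (p / 2)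
    rw [← hi] at this; linarith
  have key : ∃ m : ℕ, m % 2 = (j + 1) % 2 ∧ τ (2 * j) < 2 * m ∧ 2 * m < τ (2 * j + 4) ∧
      eS (j + 1) * x2 p ≤ eS (j + 1) * x2 (2 * m) := by
    by_cases hpar : i % 2 = (j + 1) % 2
    · have hA := A2 i
      rw [eS_mod hpar] at hA
      have h1 : eS (j + 1) * x2 p ≤ eS (j + 1) * x2 (2 * i) :=
        hA ⟨le_refl _, by linarith⟩ ⟨hi1, hi2.le⟩ hi1
      refine ⟨i, hpar, ?_, ?_, h1⟩
      · by_contra hc
        push Not at hc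
        have h2 : eS (j + 1) * x2 p ≤ eS (j + 1) * x2 (τ (2 * j)) :=
          hA ⟨hc, by linarith [hp.1]⟩ ⟨hi1, hi2.le⟩ hp.1
        linarith
      · rcases (hi1.trans hp.2).lt_or_eq with h | h
        · exact h
        · rw [← h] at gr
          linarith
    · have hpar' : (i + 1) % 2 = (j + 1) % 2 := by omega
      have hM := mono_of A2 i
      rw [eS_mod hpar'] at hM
      have h1 : eS (j + 1) * x2 p ≤ eS (j + 1) * x2 (2 * i + 2) :=
        hM ⟨hi1, hi2.le⟩ ⟨by linarith, le_refl _⟩ hi2.le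
      refine ⟨i + 1, hpar', ?_, ?_, ?_⟩
      · push_cast
        linarith [hp.1]
      · push_cast
        by_contra hc
        push Not at hc
        have h2 : eS (j + 1) * x2 p ≤ eS (j + 1) * x2 (τ (2 * j + 4)) :=
          hM ⟨hi1, hi2.le⟩ ⟨hi1.trans hp.2, by linarith⟩ hp.2
        linarith
      · push_cast
        rw [show 2 * ((i : ℝ) + 1) = 2 * i + 2 by ring]
        exact h1
  obtain ⟨m, hm1, hm2, hm3, hm4⟩ := key
  obtain ⟨s, ⟨hs1, hs2⟩, hs3⟩ := intermediate_value_Ioo (show 2 * (j : ℝ) ≤ 2 * j + 4 by linarith)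
    (hτ.mono (fun y hy => by
      have : (0 : ℝ) ≤ y := le_trans (by positivity) hy.1
      exact this)) ⟨hm2, hm3⟩
  refine ⟨m, hm1, s, hs1, hs2, hs3, ?_⟩
  have h5 := (close_of he (hd s (by linarith))).2
  have h6 := peak_le A1 j hs1.le hs2.le
  rw [hs3, v2 m] at h5
  rw [v2 m] at hm4
  rw [hx2] at h6
  have h7 : eS (j + 1) * (v m : ℝ) < eS (j + 1) * u (j + 1) + 1 / 4 := by linarith
  have h8 : eS (j + 1) * (u (j + 1) : ℝ) < eS (j + 1) * v m + 1 / 4 := by linarith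
  have h9 : (v m : ℝ) < u (j + 1) + 1 ∧ (u (j + 1) : ℝ) < v m + 1 := by
    rcases he with he | he
    · rw [he] at h7 h8
      constructor <;> linarith
    · rw [he] at h7 h8
      constructor <;> linarith
  have h10 : v m < u (j + 1) + 1 := by exact_mod_cast h9.1
  have h11 : u (j + 1) < v m + 1 := by exact_mod_cast h9.2
  omega

theorem claim2 {u v : ℕ → ℕ} {x1 x2 : ℝ → ℝ}
    (A1 : ∀ k : ℕ, AntitoneOn (fun s => eS k * x1 s) (Icc (2 * k : ℝ) (2 * k + 2)))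
    (B1 : ∀ k : ℕ, eS k * u (k + 1) + 2 ≤ eS k * u k)
    (B2 : ∀ k : ℕ, eS k * v (k + 1) + 2 ≤ eS k * v k)
    (v1 : ∀ i : ℕ, x1 (2*i) = u i) (v2 : ∀ i : ℕ, x2 (2*i) = v i)
    {τ : ℝ → ℝ} (hτ : ContinuousOn τ (Ici 0)) (hm : StrictMonoOn τ (Ici 0))
    (hd : ∀ s, 0 ≤ s → |x1 s - x2 (τ s)| < 1/4) (j m m' : ℕ)
    (hpar : m % 2 = (j + 1) % 2) (hpar' : m' % 2 = (j + 2) % 2) (s s' : ℝ)
    (hs1 : 2 * (j : ℝ) < s) (hs2 : s < 2 * j + 4) (hsm : τ s = 2 * m) (hv : v m = u (j + 1))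
    (hs1' : 2 * (j : ℝ) + 2 < s') (hs2' : s' < 2 * j + 6) (hsm' : τ s' = 2 * m')
    (hv' : v m' = u (j + 2)) : m' = m + 1 := by
  have hj : (0 : ℝ) ≤ j := Nat.cast_nonneg j
  have he := eS_cases (j + 1)
  have hx4 : x1 (2 * j + 4) = u (j + 2) := by
    have := v1 (j + 2); push_cast at this; rw [← this]; ring_nf
  have hb1 : eS (j + 1) * u (j + 2) + 2 ≤ eS (j + 1) * u (j + 1) := B1 (j + 1)
  have cs := close_of he (hd s (by linarith))
  have cs' := close_of he (hd s' (by linarith))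
  rw [hsm, v2 m, hv] at cs
  rw [hsm', v2 m', hv'] at cs'
  -- antitone on [2j+2, 2j+4]
  have hA : ∀ a b : ℝ, 2 * (j : ℝ) + 2 ≤ a → a ≤ b → b ≤ 2 * j + 4 →
      eS (j + 1) * x1 b ≤ eS (j + 1) * x1 a := by
    intro a b h1 h2 h3
    exact A1 (j + 1) ⟨by push_cast; linarith, by push_cast; linarith⟩
      ⟨by push_cast; linarith, by push_cast; linarith⟩ h2
  -- monotone on [2j, 2j+2]
  have hM : ∀ a b : ℝ, 2 * (j : ℝ) ≤ a → a ≤ b → b ≤ 2 * j + 2 →
      eS (j + 1) * x1 a ≤ eS (j + 1) * x1 b := by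
    intro a b h1 h2 h3
    exact mono_of A1 j ⟨h1, by linarith⟩ ⟨by linarith, h3⟩ h2
  -- monotone on [2j+4, 2j+6]
  have hM' : ∀ a b : ℝ, 2 * (j : ℝ) + 4 ≤ a → a ≤ b → b ≤ 2 * j + 6 →
      eS (j + 1) * x1 a ≤ eS (j + 1) * x1 b := by
    intro a b h1 h2 h3
    have := A1 (j + 2) (a := a) (b := b) ⟨by push_cast; linarith, by push_cast; linarith⟩
      ⟨by push_cast; linarith, by push_cast; linarith⟩ h2
    simp only [eS_succ] at this ⊢
    linarith
  have hss : s < s' := by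
    by_contra hc
    push Not at hc
    have := hA s' s (by linarith) hc (by linarith)
    linarith [cs.2, cs'.1]
  have hmm : m < m' := by
    have := hm (show s ∈ Ici (0:ℝ) from by simp only [mem_Ici]; linarith)
      (show s' ∈ Ici (0:ℝ) from by simp only [mem_Ici]; linarith) hss
    rw [hsm, hsm'] at this
    have h2 : (m : ℝ) < m' := by linarith
    exact_mod_cast h2
  by_contra hne
  have hm3 : m + 3 ≤ m' := by omega
  have hm3' : (m : ℝ) + 3 ≤ m' := by exact_mod_cast hm3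
  have hcon : ContinuousOn τ (Icc s s') := hτ.mono (fun y hy => by
    have : (0 : ℝ) ≤ y := le_trans (by linarith) hy.1
    exact this)
  obtain ⟨b, ⟨hb1', hb2'⟩, hb3⟩ := intermediate_value_Ioo hss.le hcon
    (show (2 * (m : ℝ) + 2) ∈ Ioo (τ s) (τ s') from by
      rw [hsm, hsm']; constructor <;> linarith)
  have hcon2 : ContinuousOn τ (Icc b s') := hτ.mono (fun y hy => by
    have : (0 : ℝ) ≤ y := le_trans (by linarith) hy.1
    exact this)
  obtain ⟨c, ⟨hc1', hc2'⟩, hc3⟩ := intermediate_value_Ioo hb2'.le hcon2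
    (show (2 * (m : ℝ) + 4) ∈ Ioo (τ b) (τ s') from by
      rw [hb3, hsm']; constructor <;> linarith)
  have cb := close_of he (hd b (by linarith))
  have cc := close_of he (hd c (by linarith))
  have hvb : x2 (τ b) = v (m + 1) := by
    rw [hb3, ← v2 (m + 1)]; push_cast; ring_nf
  have hvc : x2 (τ c) = v (m + 2) := by
    rw [hc3, ← v2 (m + 2)]; push_cast; ring_nf
  rw [hvb] at cb
  rw [hvc] at cc
  have hB2 := B2 m
  rw [eS_mod hpar, hv] at hB2
  have hB3 := B2 (m + 1)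
  rw [eS_succ, eS_mod hpar] at hB3
  have hB3' : eS (j + 1) * (v (m + 1) : ℝ) + 2 ≤ eS (j + 1) * v (m + 2) := by
    have : -eS (j + 1) * (v (m + 2) : ℝ) + 2 ≤ -eS (j + 1) * v (m + 1) := hB3
    linarith
  have hbgt : 2 * (j : ℝ) + 2 < b := by
    by_contra hc
    push Not at hc
    have := hM s b hs1.le hb1'.le hc
    linarith [cs.2, cb.1]
  have hcgt : 2 * (j : ℝ) + 4 < c := by
    by_contra hc
    push Not at hc
    have := hA b c hbgt.le hc1'.le hc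
    linarith [cc.2, cb.1]
  have h1 := hM' c s' hcgt.le hc2'.le hs2'.le
  have h2 : eS (j + 1) * (u (j + 2) : ℝ) ≤ eS (j + 1) * x1 b := by
    rw [← hx4]
    rcases le_total b (2 * (j : ℝ) + 4) with h | h
    · exact hA b (2 * j + 4) hbgt.le h (le_refl _)
    · exact hM' (2 * j + 4) b (le_refl _) h (by linarith)
  linarith [cs'.1, cc.2, cb.1]

theorem anti_of {x : ℝ → ℝ}
    (m1 : ∀ i : ℕ, MonotoneOn x (Icc (4*i : ℝ) (4*i+2)))
    (a1 : ∀ i : ℕ, AntitoneOn x (Icc (4*i+2 : ℝ) (4*i+4))) (k : ℕ) :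
    AntitoneOn (fun s => eS k * x s) (Icc (2 * k : ℝ) (2 * k + 2)) := by
  rcases Nat.even_or_odd' k with ⟨i, rfl | rfl⟩
  · have he : eS (2 * i) = -1 := by
      unfold eS; rw [pow_succ, pow_mul]; norm_num
    intro a ha b hb hab
    simp only [he]
    push_cast at ha hb
    have := m1 i (a := a) (b := b) ⟨by linarith [ha.1], by linarith [ha.2]⟩
      ⟨by linarith [hb.1], by linarith [hb.2]⟩ hab
    linarith
  · have he : eS (2 * i + 1) = 1 := by
      unfold eS; rw [pow_succ, pow_succ, pow_mul]; norm_num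
    intro a ha b hb hab
    simp only [he]
    push_cast at ha hb
    have := a1 i (a := a) (b := b) ⟨by linarith [ha.1], by linarith [ha.2]⟩
      ⟨by linarith [hb.1], by linarith [hb.2]⟩ hab
    linarith

theorem gap_of {u : ℕ → ℕ} (hu : ∀ i, u (2*i) + 2 ≤ u (2*i+1) ∧ u (2*i+2) + 2 ≤ u (2*i+1))
    (k : ℕ) : eS k * (u (k + 1) : ℝ) + 2 ≤ eS k * u k := by
  rcases Nat.even_or_odd' k with ⟨i, rfl | rfl⟩
  · have he : eS (2 * i) = -1 := by
      unfold eS; rw [pow_succ, pow_mul]; norm_num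
    rw [he]
    have : ((u (2 * i) : ℝ)) + 2 ≤ u (2 * i + 1) := by exact_mod_cast (hu i).1
    linarith
  · have he : eS (2 * i + 1) = 1 := by
      unfold eS; rw [pow_succ, pow_succ, pow_mul]; norm_num
    rw [he]
    have : ((u (2 * i + 1 + 1) : ℝ)) + 2 ≤ u (2 * i + 1) := by exact_mod_cast (hu i).2
    linarith

/-! TARGET: (was a job) -/

theorem match_abs {u v : ℕ → ℕ}
    (hu : ∀ i, u (2*i) + 2 ≤ u (2*i+1) ∧ u (2*i+2) + 2 ≤ u (2*i+1))
    (hv : ∀ i, v (2*i) + 2 ≤ v (2*i+1) ∧ v (2*i+2) + 2 ≤ v (2*i+1))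
    {x1 x2 : ℝ → ℝ} (c1 : Continuous x1) (c2 : Continuous x2)
    (v1 : ∀ i : ℕ, x1 (2*i) = u i) (v2 : ∀ i : ℕ, x2 (2*i) = v i)
    (m1 : ∀ i : ℕ, MonotoneOn x1 (Icc (4*i : ℝ) (4*i+2)))
    (a1 : ∀ i : ℕ, AntitoneOn x1 (Icc (4*i+2 : ℝ) (4*i+4)))
    (m2 : ∀ i : ℕ, MonotoneOn x2 (Icc (4*i : ℝ) (4*i+2)))
    (a2 : ∀ i : ℕ, AntitoneOn x2 (Icc (4*i+2 : ℝ) (4*i+4)))
    {τ : ℝ → ℝ} (hτ : ContinuousOn τ (Ici 0)) (hm : StrictMonoOn τ (Ici 0))
    (h0 : ∀ s, 0 ≤ s → 0 ≤ τ s)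
    (hd : ∀ s, 0 ≤ s → |x1 s - x2 (τ s)| < 1/4) :
    ∃ M : ℕ, ∀ i, u (1 + i) = v (M + i) := by
  have A1 := anti_of m1 a1
  have A2 := anti_of m2 a2
  have B1 := gap_of hu
  have B2 := gap_of hv
  have C1 := claim1 c2 A1 A2 B1 v1 v2 hτ hm h0 hd
  obtain ⟨M, hM, s0, hs0⟩ := C1 0
  refine ⟨M, ?_⟩
  have main : ∀ i : ℕ, (M + i) % 2 = (i + 1) % 2 ∧ ∃ s : ℝ, 2 * (i : ℝ) < s ∧ s < 2 * i + 4 ∧
      τ s = 2 * ((M + i : ℕ) : ℝ) ∧ v (M + i) = u (i + 1) := by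
    intro i
    induction i with
    | zero => exact ⟨hM, s0, hs0⟩
    | succ i ih =>
      obtain ⟨hp, s, h1, h2, h3, h4⟩ := ih
      obtain ⟨m', hp', s', h1', h2', h3', h4'⟩ := C1 (i + 1)
      have hmm : m' = (M + i) + 1 := by
        push_cast at h1' h2'
        exact claim2 A1 B1 B2 v1 v2 hτ hm hd i (M + i) m' hp hp' s s' h1 h2 h3 h4
          (by linarith) (by linarith) h3' h4'
      refine ⟨by omega, s', h1', h2', ?_, ?_⟩
      · rw [h3', hmm]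
        rfl
      · rw [← h4', hmm]
        rfl
  intro i
  obtain ⟨_, s, _, _, _, h⟩ := main i
  rw [h, add_comm]

end Pool.Agent.Helper302.Univ
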