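import Mathlib

set_option autoImplicit false

namespace Pool.Agent.Helper302.Univ

open Set Filter Topology

theorem box_lemma (X Y : ℝ → ℝ) (p q : ℝ) (hX : ContinuousOn X (Icc p q))
    (hY : ContinuousOn Y (Icc p q)) (l r b a : ℝ)
    (hb : ∀ s ∈ Icc p q, l ≤ X s → X s ≤ r → b ≤ Y s → Y s ≤ a →
      (X s ≠ l ∧ X s ≠ r ∧ Y s ≠ b ∧ Y s ≠ a))
    (s0 : ℝ) (hs0 : s0 ∈ Icc p q) (h0 : l < X s0 ∧ X s0 < r ∧ b < Y s0 ∧ Y s0 < a) :
    ∀ s ∈ Icc p q, l < X s ∧ X s < r ∧ b < Y s ∧ Y s < a := by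
  have hF : ContinuousOn (fun s => (X s, Y s)) (Icc p q) := hX.prodMk hY
  have hpre : IsPreconnected ((fun s => (X s, Y s)) '' Icc p q) := isPreconnected_Icc.image _ hF
  have hU : IsOpen (Ioo l r ×ˢ Ioo b a) := isOpen_Ioo.prod isOpen_Ioo
  have hV : IsOpen (Icc l r ×ˢ Icc b a)ᶜ := (isClosed_Icc.prod isClosed_Icc).isOpen_compl
  have hdisj : Disjoint (Ioo l r ×ˢ Ioo b a) (Icc l r ×ˢ Icc b a)ᶜ := by
    rw [Set.disjoint_compl_right_iff_subset]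
    exact Set.prod_mono Ioo_subset_Icc_self Ioo_subset_Icc_self
  have hcov : (fun s => (X s, Y s)) '' Icc p q ⊆ (Ioo l r ×ˢ Ioo b a) ∪ (Icc l r ×ˢ Icc b a)ᶜ := by
    rintro _ ⟨s, hs, rfl⟩
    by_cases hin : (X s, Y s) ∈ Icc l r ×ˢ Icc b a
    · left
      obtain ⟨⟨h1, h2⟩, ⟨h3, h4⟩⟩ := hin
      obtain ⟨g1, g2, g3, g4⟩ := hb s hs h1 h2 h3 h4
      exact ⟨⟨lt_of_le_of_ne h1 (Ne.symm g1), lt_of_le_of_ne h2 g2⟩,
        ⟨lt_of_le_of_ne h3 (Ne.symm g3), lt_of_le_of_ne h4 g4⟩⟩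
    · right; exact hin
  have hsub := hpre.subset_left_of_subset_union hU hV hdisj hcov
    ⟨_, ⟨s0, hs0, rfl⟩, ⟨⟨h0.1, h0.2.1⟩, ⟨h0.2.2.1, h0.2.2.2⟩⟩⟩
  intro s hs
  obtain ⟨⟨h1, h2⟩, ⟨h3, h4⟩⟩ := hsub ⟨s, hs, rfl⟩
  exact ⟨h1, h2, h3, h4⟩

theorem line_lt (Y : ℝ → ℝ) (p q c : ℝ) (hpq : p ≤ q) (hY : ContinuousOn Y (Icc p q))
    (hne : ∀ s ∈ Icc p q, Y s ≠ c) (h : Y p < c) : Y q < c := by
  by_contra hcon
  push Not at hcon
  obtain ⟨s, hs, hs2⟩ := intermediate_value_Icc hpq hY ⟨h.le, hcon⟩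
  exact hne s hs hs2

theorem line_gt (Y : ℝ → ℝ) (p q c : ℝ) (hpq : p ≤ q) (hY : ContinuousOn Y (Icc p q))
    (hne : ∀ s ∈ Icc p q, Y s ≠ c) (h : c < Y p) : c < Y q := by
  by_contra hcon
  push Not at hcon
  obtain ⟨s, hs, hs2⟩ := intermediate_value_Icc' hpq hY ⟨hcon, h.le⟩
  exact hne s hs hs2

theorem stuck (X Y : ℝ → ℝ) (hX : ContinuousOn X (Icc 0 10)) (hY : ContinuousOn Y (Icc 0 10))
    (hXs : ∀ s ∈ Icc (0 : ℝ) 10, |X s - s| < 1/4) (hYs : ∀ s ∈ Icc (0 : ℝ) 10, Y s < 1/4)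
    (hpos : ∀ s ∈ Icc (1/2 : ℝ) (19/2), 0 < Y s)
    (a0 : ∀ (k : ℕ), ∀ s ∈ Icc (0 : ℝ) 10, ¬ (Y s = 1/(10*k+1) ∧ X s ∈ Icc (0 : ℝ) 4))
    (a1 : ∀ (k : ℕ), ∀ s ∈ Icc (0 : ℝ) 10, ¬ (Y s = 1/(10*k+2) ∧ X s ∈ Icc (0 : ℝ) 3))
    (b1 : ∀ (k : ℕ), ∀ s ∈ Icc (0 : ℝ) 10, ¬ (Y s = 1/(10*k+3) ∧ X s ∈ Icc (1 : ℝ) 3))
    (b0 : ∀ (k : ℕ), ∀ s ∈ Icc (0 : ℝ) 10, ¬ (Y s = 1/(10*k+4) ∧ X s ∈ Icc (2 : ℝ) 4))
    (c0 : ∀ (k : ℕ), ∀ s ∈ Icc (0 : ℝ) 10, ¬ (Y s = 1/(10*k+5) ∧ X s ∈ Icc (2 : ℝ) 7))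
    (c1 : ∀ (k : ℕ), ∀ s ∈ Icc (0 : ℝ) 10, ¬ (Y s = 1/(10*k+10) ∧ X s ∈ Icc (1 : ℝ) 8))
    (d1 : ∀ (k : ℕ), ∀ s ∈ Icc (0 : ℝ) 10, ¬ (Y s = 1/(10*k+17) ∧ X s ∈ Icc (6 : ℝ) 8))
    (va0 : ∀ (k : ℕ), ∀ s ∈ Icc (0 : ℝ) 10, ¬ (X s = 4 ∧ Y s ∈ Icc (1/(10*k+4) : ℝ) (1/(10*k+1))))
    (va1 : ∀ (k : ℕ), ∀ s ∈ Icc (0 : ℝ) 10, ¬ (X s = 3 ∧ Y s ∈ Icc (1/(10*k+3) : ℝ) (1/(10*k+2))))
    (vb0 : ∀ (k : ℕ), ∀ s ∈ Icc (0 : ℝ) 10, ¬ (X s = 2 ∧ Y s ∈ Icc (1/(10*k+5) : ℝ) (1/(10*k+4))))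
    (vb1 : ∀ (k : ℕ), ∀ s ∈ Icc (0 : ℝ) 10, ¬ (X s = 1 ∧ Y s ∈ Icc (1/(10*k+10) : ℝ) (1/(10*k+3))))
    (vc1 : ∀ (k : ℕ), ∀ s ∈ Icc (0 : ℝ) 10, ¬ (X s = 8 ∧ Y s ∈ Icc (1/(10*k+17) : ℝ) (1/(10*k+10)))) :
    False := by
  have hXc : ∀ p q : ℝ, 0 ≤ p → q ≤ 10 → ContinuousOn X (Icc p q) := fun p q h1 h2 =>
    hX.mono (Icc_subset_Icc h1 h2)
  have hYc : ∀ p q : ℝ, 0 ≤ p → q ≤ 10 → ContinuousOn Y (Icc p q) := fun p q h1 h2 =>
    hY.mono (Icc_subset_Icc h1 h2)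
  have hXb : ∀ s ∈ Icc (0 : ℝ) 10, s - 1/4 < X s ∧ X s < s + 1/4 := by
    intro s hs
    have := abs_lt.1 (hXs s hs)
    constructor <;> linarith [this.1, this.2]
  have m0 : (5/2 : ℝ) ∈ Icc (0 : ℝ) 10 := by constructor <;> norm_num
  have hX0 := hXb _ m0
  have hy1 := hYs _ m0
  have hy0 : 0 < Y (5/2) := hpos _ (by constructor <;> norm_num)
  obtain ⟨y, hy⟩ : ∃ y, y = Y (5/2) := ⟨_, rfl⟩
  rw [← hy] at hy1 hy0
  obtain ⟨u, hu⟩ : ∃ u, u = 1 / y := ⟨_, rfl⟩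
  have hu0 : 0 < u := by rw [hu]; positivity
  have hyu : y = 1 / u := by rw [hu, one_div_one_div]
  have hu4 : 4 < u := by
    rw [hu, lt_one_div (by norm_num) hy0]
    exact hy1
  have conv1 : ∀ c : ℝ, 0 < c → c < u → y < 1 / c := by
    intro c hc h
    rw [hyu]; exact one_div_lt_one_div_of_lt hc h
  have conv2 : ∀ c : ℝ, u < c → 1 / c < y := by
    intro c h
    rw [hyu]; exact one_div_lt_one_div_of_lt hu0 h
  have conv3 : ∀ c : ℝ, u = c → y = 1 / c := by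
    intro c h
    rw [hyu, h]
  have kpos : ∀ k : ℕ, (0 : ℝ) ≤ 10 * k := fun k => by positivity
  -- equalities
  have n1 : ∀ k : ℕ, u ≠ 10*k+1 := fun k h =>
    a0 k _ m0 ⟨by rw [← hy]; exact conv3 _ h, by constructor <;> linarith⟩
  have n2 : ∀ k : ℕ, u ≠ 10*k+2 := fun k h =>
    a1 k _ m0 ⟨by rw [← hy]; exact conv3 _ h, by constructor <;> linarith⟩
  have n3 : ∀ k : ℕ, u ≠ 10*k+3 := fun k h =>
    b1 k _ m0 ⟨by rw [← hy]; exact conv3 _ h, by constructor <;> linarith⟩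
  have n4 : ∀ k : ℕ, u ≠ 10*k+4 := fun k h =>
    b0 k _ m0 ⟨by rw [← hy]; exact conv3 _ h, by constructor <;> linarith⟩
  have n5 : ∀ k : ℕ, u ≠ 10*k+5 := fun k h =>
    c0 k _ m0 ⟨by rw [← hy]; exact conv3 _ h, by constructor <;> linarith⟩
  have n10 : ∀ k : ℕ, u ≠ 10*k+10 := fun k h =>
    c1 k _ m0 ⟨by rw [← hy]; exact conv3 _ h, by constructor <;> linarith⟩
  -- boxes
  have i14 : ∀ k : ℕ, ¬ (10*(k:ℝ)+1 < u ∧ u < 10*k+4) := by
    rintro k ⟨h1, h2⟩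
    have hk := kpos k
    have hbox := box_lemma X Y (5/2) (9/2) (hXc _ _ (by norm_num) (by norm_num))
      (hYc _ _ (by norm_num) (by norm_num)) 2 4 (1/(10*k+4)) (1/(10*k+1)) (by
        intro s hs g1 g2 g3 g4
        have ms : s ∈ Icc (0:ℝ) 10 := ⟨by linarith [hs.1], by linarith [hs.2]⟩
        have hx := hXb s ms
        refine ⟨by linarith [hs.1], ?_, ?_, ?_⟩
        · intro he; exact va0 k s ms ⟨he, g3, g4⟩
        · intro he; exact b0 k s ms ⟨he, g1, g2⟩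
        · intro he; exact a0 k s ms ⟨he, by linarith, g2⟩)
      (5/2) (by constructor <;> norm_num)
      ⟨by linarith, by linarith, by rw [← hy]; exact conv2 _ h2,
        by rw [← hy]; exact conv1 _ (by linarith) h1⟩
    have hend := hbox (9/2) (by constructor <;> norm_num)
    have hx := hXb (9/2) (by constructor <;> norm_num)
    linarith [hend.2.1, hx.1]
  have i45 : ∀ k : ℕ, ¬ (10*(k:ℝ)+4 < u ∧ u < 10*k+5) := by
    rintro k ⟨h1, h2⟩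
    have hk := kpos k
    have hbox := box_lemma X Y (3/2) (5/2) (hXc _ _ (by norm_num) (by norm_num))
      (hYc _ _ (by norm_num) (by norm_num)) 2 4 (1/(10*k+5)) (1/(10*k+4)) (by
        intro s hs g1 g2 g3 g4
        have ms : s ∈ Icc (0:ℝ) 10 := ⟨by linarith [hs.1], by linarith [hs.2]⟩
        have hx := hXb s ms
        refine ⟨?_, by linarith [hs.2], ?_, ?_⟩
        · intro he; exact vb0 k s ms ⟨he, g3, g4⟩
        · intro he; exact c0 k s ms ⟨he, g1, by linarith⟩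
        · intro he; exact b0 k s ms ⟨he, g1, g2⟩)
      (5/2) (by constructor <;> norm_num)
      ⟨by linarith, by linarith, by rw [← hy]; exact conv2 _ h2,
        by rw [← hy]; exact conv1 _ (by linarith) h1⟩
    have hend := hbox (3/2) (by constructor <;> norm_num)
    have hx := hXb (3/2) (by constructor <;> norm_num)
    linarith [hend.1, hx.2]
  have i23 : ∀ k : ℕ, ¬ (10*(k:ℝ)+2 < u ∧ u < 10*k+3) := by
    rintro k ⟨h1, h2⟩
    have hk := kpos k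
    have hbox := box_lemma X Y (5/2) (7/2) (hXc _ _ (by norm_num) (by norm_num))
      (hYc _ _ (by norm_num) (by norm_num)) 1 3 (1/(10*k+3)) (1/(10*k+2)) (by
        intro s hs g1 g2 g3 g4
        have ms : s ∈ Icc (0:ℝ) 10 := ⟨by linarith [hs.1], by linarith [hs.2]⟩
        have hx := hXb s ms
        refine ⟨by linarith [hs.1], ?_, ?_, ?_⟩
        · intro he; exact va1 k s ms ⟨he, g3, g4⟩
        · intro he; exact b1 k s ms ⟨he, g1, g2⟩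
        · intro he; exact a1 k s ms ⟨he, by linarith, g2⟩)
      (5/2) (by constructor <;> norm_num)
      ⟨by linarith, by linarith, by rw [← hy]; exact conv2 _ h2,
        by rw [← hy]; exact conv1 _ (by linarith) h1⟩
    have hend := hbox (7/2) (by constructor <;> norm_num)
    have hx := hXb (7/2) (by constructor <;> norm_num)
    linarith [hend.2.1, hx.1]
  have i310 : ∀ k : ℕ, ¬ (10*(k:ℝ)+3 < u ∧ u < 10*k+10) := by
    rintro k ⟨h1, h2⟩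
    have hk := kpos k
    have hbox := box_lemma X Y (1/2) (5/2) (hXc _ _ (by norm_num) (by norm_num))
      (hYc _ _ (by norm_num) (by norm_num)) 1 3 (1/(10*k+10)) (1/(10*k+3)) (by
        intro s hs g1 g2 g3 g4
        have ms : s ∈ Icc (0:ℝ) 10 := ⟨by linarith [hs.1], by linarith [hs.2]⟩
        have hx := hXb s ms
        refine ⟨?_, by linarith [hs.2], ?_, ?_⟩
        · intro he; exact vb1 k s ms ⟨he, g3, g4⟩
        · intro he; exact c1 k s ms ⟨he, g1, by linarith⟩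
        · intro he; exact b1 k s ms ⟨he, g1, g2⟩)
      (5/2) (by constructor <;> norm_num)
      ⟨by linarith, by linarith, by rw [← hy]; exact conv2 _ h2,
        by rw [← hy]; exact conv1 _ (by linarith) h1⟩
    have hend := hbox (1/2) (by constructor <;> norm_num)
    have hx := hXb (1/2) (by constructor <;> norm_num)
    linarith [hend.1, hx.2]
  -- the block
  obtain ⟨k, hk1, hk2⟩ : ∃ k : ℕ, 10*(k:ℝ)+1 ≤ u ∧ u < 10*k+11 := by
    refine ⟨⌊(u-1)/10⌋₊, ?_, ?_⟩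
    · have := Nat.floor_le (show 0 ≤ (u-1)/10 by linarith)
      linarith
    · have := Nat.lt_floor_add_one ((u-1)/10)
      linarith
  have hk := kpos k
  have h10 : 10*(k:ℝ)+10 < u := by
    by_contra hcon
    push Not at hcon
    have g1 : 10*(k:ℝ)+1 < u := lt_of_le_of_ne hk1 (Ne.symm (n1 k))
    have g10 : u < 10*k+10 := lt_of_le_of_ne hcon (n10 k)
    rcases lt_trichotomy u (10*k+4) with h | h | h
    · exact i14 k ⟨g1, h⟩
    · exact n4 k h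
    · exact i310 k ⟨by linarith, g10⟩
  have e1 : Y (5/2) < 1/(10*k+10) := by rw [← hy]; exact conv1 _ (by linarith) h10
  have e2 : 1/(10*(k:ℝ)+15) < Y (5/2) := by rw [← hy]; exact conv2 _ (by linarith)
  have f1 : Y (13/2) < 1/(10*k+10) := by
    refine line_lt Y (5/2) (13/2) _ (by norm_num) (hYc _ _ (by norm_num) (by norm_num)) ?_ e1
    intro s hs he
    have ms : s ∈ Icc (0:ℝ) 10 := ⟨by linarith [hs.1], by linarith [hs.2]⟩
    have hx := hXb s ms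
    exact c1 k s ms ⟨he, by linarith [hs.1], by linarith [hs.2]⟩
  have f2 : 1/(10*(k:ℝ)+15) < Y (13/2) := by
    refine line_gt Y (5/2) (13/2) _ (by norm_num) (hYc _ _ (by norm_num) (by norm_num)) ?_ e2
    intro s hs he
    have ms : s ∈ Icc (0:ℝ) 10 := ⟨by linarith [hs.1], by linarith [hs.2]⟩
    have hx := hXb s ms
    refine c0 (k+1) s ms ⟨?_, by linarith [hs.1], by linarith [hs.2]⟩
    rw [he]; push_cast; ring
  have f3 : 1/(10*(k:ℝ)+17) < Y (13/2) := by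
    refine lt_trans ?_ f2
    exact one_div_lt_one_div_of_lt (by linarith) (by linarith)
  have hbox := box_lemma X Y (13/2) (17/2) (hXc _ _ (by norm_num) (by norm_num))
    (hYc _ _ (by norm_num) (by norm_num)) 6 8 (1/(10*k+17)) (1/(10*k+10)) (by
      intro s hs g1 g2 g3 g4
      have ms : s ∈ Icc (0:ℝ) 10 := ⟨by linarith [hs.1], by linarith [hs.2]⟩
      have hx := hXb s ms
      refine ⟨by linarith [hs.1], ?_, ?_, ?_⟩
      · intro he; exact vc1 k s ms ⟨he, g3, g4⟩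
      · intro he; exact d1 k s ms ⟨he, g1, g2⟩
      · intro he; exact c1 k s ms ⟨he, by linarith, g2⟩)
    (13/2) (by constructor <;> norm_num)
    (by
      have hx := hXb (13/2) (by constructor <;> norm_num)
      exact ⟨by linarith [hx.1], by linarith [hx.2], f3, f1⟩)
  have hend := hbox (17/2) (by constructor <;> norm_num)
  have hx := hXb (17/2) (by constructor <;> norm_num)
  linarith [hend.2.1, hx.1]

end Pool.Agent.Helper302.Univ
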