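import Pool.Agent.Helper302.Univ.Inj
import Pool.Agent.Helper302.Univ.Chain
import Pool.Agent.Helper302.Univ.Stuck
import Pool.Agent.Helper302.Univ.Match

set_option autoImplicit false

namespace Pool.Agent.Helper302.Univ

open Set Filter Topology

noncomputable section

theorem xs_even (α : ℕ → Bool) (i : ℕ) : xs α (2 * i) = (vv α i : ℝ) := by
  unfold xs; rw [show (2 * i + 1) / 2 = i by omega]

theorem xs_odd (α : ℕ → Bool) (i : ℕ) : xs α (2 * i + 1) = (vv α (i + 1) : ℝ) := by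
  unfold xs; rw [show (2 * i + 1 + 1) / 2 = i + 1 by omega]

theorem ys_even (i : ℕ) : ys (2 * i) = 1 / (dep i : ℝ) := by
  unfold ys; rw [show (2 * i) / 2 = i by omega]

theorem ys_odd (i : ℕ) : ys (2 * i + 1) = 1 / (dep i : ℝ) := by
  unfold ys; rw [show (2 * i + 1) / 2 = i by omega]

theorem pl_xs_hor (α : ℕ → Bool) (i : ℕ) {t : ℝ} (h : 2 * (i : ℝ) ≤ t) (h' : t ≤ 2 * i + 1) :
    pl (xs α) t = vv α i + ((vv α (i + 1) : ℝ) - vv α i) * (t - 2 * i) := by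
  rw [pl_on (xs α) (2 * i) (by push_cast; exact h) (by push_cast; exact h'), xs_even, xs_odd]
  push_cast; ring

theorem pl_ys_hor (i : ℕ) {t : ℝ} (h : 2 * (i : ℝ) ≤ t) (h' : t ≤ 2 * i + 1) :
    pl ys t = 1 / (dep i : ℝ) := by
  rw [pl_on ys (2 * i) (by push_cast; exact h) (by push_cast; exact h'), ys_even, ys_odd]
  ring

theorem pl_xs_ver (α : ℕ → Bool) (i : ℕ) {t : ℝ} (h : 2 * (i : ℝ) + 1 ≤ t) (h' : t ≤ 2 * i + 2) :
    pl (xs α) t = vv α (i + 1) := by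
  rw [pl_on (xs α) (2 * i + 1) (by push_cast; exact h) (by push_cast; linarith), xs_odd,
    show 2 * i + 1 + 1 = 2 * (i + 1) by ring, xs_even]
  ring

theorem pl_ys_ver (i : ℕ) {t : ℝ} (h : 2 * (i : ℝ) + 1 ≤ t) (h' : t ≤ 2 * i + 2) :
    pl ys t = 1 / (dep i : ℝ) + (1 / (dep (i + 1) : ℝ) - 1 / (dep i : ℝ)) * (t - (2 * i + 1)) := by
  rw [pl_on ys (2 * i + 1) (by push_cast; exact h) (by push_cast; linarith), ys_odd,
    show 2 * i + 1 + 1 = 2 * (i + 1) by ring, ys_even]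
  push_cast; ring

/-- all points of the horizontal strand `i` are on the ray -/
theorem hor_mem (α : ℕ → Bool) (i : ℕ) {x : ℝ}
    (hx : x ∈ uIcc (vv α i : ℝ) (vv α (i + 1) : ℝ)) :
    ∃ t : ℝ, 0 ≤ t ∧ pl (xs α) t = x ∧ pl ys t = 1 / (dep i : ℝ) := by
  have h0 : (0 : ℝ) ≤ 2 * (i : ℝ) := by positivity
  have hc : ContinuousOn (pl (xs α)) (uIcc (2 * (i : ℝ)) (2 * i + 1)) :=
    (continuous_pl _).continuousOn
  have h1 : pl (xs α) (2 * (i : ℝ)) = vv α i := by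
    rw [pl_xs_hor α i le_rfl (by linarith)]; ring
  have h2 : pl (xs α) (2 * (i : ℝ) + 1) = vv α (i + 1) := by
    rw [pl_xs_hor α i (by linarith) le_rfl]; ring
  obtain ⟨t, ht, htx⟩ := intermediate_value_uIcc hc (by rw [h1, h2]; exact hx)
  rw [uIcc_of_le (by linarith)] at ht
  exact ⟨t, by linarith [ht.1], htx, pl_ys_hor i ht.1 ht.2⟩

theorem ver_mem (α : ℕ → Bool) (i : ℕ) {y : ℝ}
    (hy : y ∈ uIcc (1 / (dep i : ℝ)) (1 / (dep (i + 1) : ℝ))) :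
    ∃ t : ℝ, 0 ≤ t ∧ pl (xs α) t = vv α (i + 1) ∧ pl ys t = y := by
  have h0 : (0 : ℝ) ≤ 2 * (i : ℝ) := by positivity
  have hc : ContinuousOn (pl ys) (uIcc (2 * (i : ℝ) + 1) (2 * i + 2)) :=
    (continuous_pl _).continuousOn
  have h1 : pl ys (2 * (i : ℝ) + 1) = 1 / (dep i : ℝ) := by
    rw [pl_ys_ver i le_rfl (by linarith)]; ring
  have h2 : pl ys (2 * (i : ℝ) + 2) = 1 / (dep (i + 1) : ℝ) := by
    rw [pl_ys_ver i (by linarith) le_rfl]; ring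
  obtain ⟨t, ht, hty⟩ := intermediate_value_uIcc hc (by rw [h1, h2]; exact hy)
  rw [uIcc_of_le (by linarith)] at ht
  exact ⟨t, by linarith [ht.1], pl_xs_ver α i ht.1 ht.2, hty⟩

theorem vv_le (α : ℕ → Bool) (i : ℕ) : vv α i ≤ 10 := by
  obtain ⟨a, h⟩ := tabR α i
  omega

theorem le_dep (i : ℕ) : i ≤ dep i + 7 := by
  obtain ⟨a, h⟩ := tabR (fun _ => true) i
  omega

theorem pl_xs_mem (α : ℕ → Bool) {t : ℝ} (ht : 0 ≤ t) : pl (xs α) t ∈ Icc (0 : ℝ) 10 := by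
  obtain ⟨i, h⟩ := formR α ht
  have h1 : (vv α i : ℝ) ≤ 10 := by exact_mod_cast vv_le α i
  have h2 : (vv α (i + 1) : ℝ) ≤ 10 := by exact_mod_cast vv_le α (i + 1)
  have h3 : (0 : ℝ) ≤ vv α i := Nat.cast_nonneg _
  have h4 : (0 : ℝ) ≤ vv α (i + 1) := Nat.cast_nonneg _
  rcases h with ⟨w, hw0, hw1, _, hx, _⟩ | ⟨w, _, _, _, hx, _⟩
  · rw [hx]
    constructor <;> nlinarith
  · rw [hx]; exact ⟨h4, h2⟩

theorem pl_ys_bound {K : ℕ} (hK : 1 ≤ K) {t : ℝ} (ht : 2 * ((K : ℝ) + 8) ≤ t) :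
    0 < pl ys t ∧ pl ys t ≤ 1 / (K : ℝ) := by
  have ht0 : 0 ≤ t := le_trans (by positivity) ht
  have hKp : (0 : ℝ) < K := by exact_mod_cast hK
  obtain ⟨i, h⟩ := formR (fun _ => true) ht0
  have key : ∀ i : ℕ, K + 7 ≤ i → 0 < 1 / (dep i : ℝ) ∧ 1 / (dep i : ℝ) ≤ 1 / (K : ℝ) := by
    intro i hi
    have h1 : K ≤ dep i := by have := le_dep i; omega
    have h2 : (K : ℝ) ≤ dep i := by exact_mod_cast h1
    exact ⟨one_div_pos.mpr (lt_of_lt_of_le hKp h2), one_div_le_one_div_of_le hKp h2⟩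
  have hi : K + 7 ≤ i := by
    have h1 : 2 * ((K : ℝ) + 8) < 2 * (i : ℝ) + 2 := by
      rcases h with ⟨w, hw0, hw1, hs, _⟩ | ⟨w, hw0, hw1, hs, _⟩ <;> linarith
    have h2 : ((K + 7 : ℕ) : ℝ) < (i : ℝ) := by push_cast; linarith
    exact le_of_lt (by exact_mod_cast h2)
  obtain ⟨a1, a2⟩ := key i hi
  obtain ⟨b1, b2⟩ := key (i + 1) (by omega)
  rcases h with ⟨w, hw0, hw1, _, _, hy⟩ | ⟨w, hw0, hw1, _, _, hy⟩
  · rw [hy]; exact ⟨a1, a2⟩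
  · rw [hy]
    constructor <;> nlinarith

theorem pl_ys_pos {t : ℝ} (ht : 0 ≤ t) : 0 < pl ys t := by
  obtain ⟨i, h⟩ := formR (fun _ => true) ht
  have key : ∀ i : ℕ, 0 < 1 / (dep i : ℝ) := by
    intro i
    have h1 : 1 ≤ dep i := dep_posR i
    have h2 : (1 : ℝ) ≤ dep i := by exact_mod_cast h1
    positivity
  have a1 := key i
  have b1 := key (i + 1)
  rcases h with ⟨w, hw0, hw1, _, _, hy⟩ | ⟨w, hw0, hw1, _, _, hy⟩
  · rw [hy]; exact a1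
  · rw [hy]
    nlinarith

theorem pl_ys_small {δ : ℝ} (hδ : 0 < δ) : ∃ N : ℝ, 0 ≤ N ∧ ∀ t, N ≤ t → pl ys t < δ := by
  obtain ⟨K, hK⟩ := exists_nat_gt (1 / δ)
  have hK1 : 1 ≤ K := by
    have : (0 : ℝ) < K := lt_trans (by positivity) hK
    exact_mod_cast this
  refine ⟨2 * ((K : ℝ) + 8), by positivity, fun t ht => ?_⟩
  refine lt_of_le_of_lt (pl_ys_bound hK1 ht).2 ?_
  rw [div_lt_comm₀ (by exact_mod_cast hK1) hδ]
  exact hK

theorem vv_zero (α : ℕ → Bool) (k : ℕ) : vv α (10 * k) = 0 := by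
  unfold vv
  rw [show (10 * k) % 10 = 0 by omega]
  rfl

theorem vv_five (α : ℕ → Bool) (k : ℕ) :
    vv α (10 * k + 5) = if bit α k then 10 else 9 := by
  unfold vv
  rw [show (10 * k + 5) % 10 = 5 by omega, show (10 * k + 5) / 10 = k by omega]
  rfl

theorem vv_ten (α : ℕ → Bool) (k : ℕ) : vv α (20 * k + 5) = 10 := by
  rw [show 20 * k + 5 = 10 * (2 * k) + 5 by ring, vv_five]
  unfold bit
  rw [show (2 * k) % 2 = 0 by omega]
  rfl

theorem pl_xs_two (α : ℕ → Bool) (i : ℕ) : pl (xs α) (2 * (i : ℝ)) = vv α i := by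
  have := pl_nat (xs α) (2 * i)
  push_cast at this
  rw [this, xs_even]

theorem visit_ten (α : ℕ → Bool) (N : ℝ) : ∃ t, N ≤ t ∧ 0 ≤ t ∧ pl (xs α) t = 10 := by
  obtain ⟨k, hk⟩ := exists_nat_ge N
  refine ⟨2 * ((20 * k + 5 : ℕ) : ℝ), ?_, by positivity, ?_⟩
  · push_cast
    have : (0 : ℝ) ≤ k := Nat.cast_nonneg k
    linarith
  · rw [pl_xs_two, vv_ten]; norm_num

theorem visit_zero (α : ℕ → Bool) (N : ℝ) : ∃ t, N ≤ t ∧ 0 ≤ t ∧ pl (xs α) t = 0 := by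
  obtain ⟨k, hk⟩ := exists_nat_ge N
  refine ⟨2 * ((10 * k : ℕ) : ℝ), ?_, by positivity, ?_⟩
  · push_cast
    have : (0 : ℝ) ≤ k := Nat.cast_nonneg k
    linarith
  · rw [pl_xs_two, vv_zero]; norm_num

theorem visit (α : ℕ → Bool) {c : ℝ} (hc : c ∈ Icc (0 : ℝ) 10) (N : ℝ) :
    ∃ t, N ≤ t ∧ 0 ≤ t ∧ pl (xs α) t = c := by
  obtain ⟨s, hs, hs0, hsv⟩ := visit_zero α N
  obtain ⟨t, ht, ht0, htv⟩ := visit_ten α s
  have := intermediate_value_Icc ht (continuous_pl (xs α)).continuousOn (show c ∈ Icc _ _ by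
    rw [hsv, htv]; exact hc)
  obtain ⟨u, hu, huc⟩ := this
  exact ⟨u, hs.trans hu.1, hs0.trans hu.1, huc⟩

end

end Pool.Agent.Helper302.Univ
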