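import Pool.Agent.Helper302.Univ.Tail

set_option autoImplicit false

namespace Pool.Agent.Helper302.Univ

open Set Filter Topology

theorem trd_between {M : Set P} {n : ℕ} {U : Fin n → Set P} (hU : ∀ i, IsOpen (U i))
    (hcov : M ⊆ ⋃ i, U i)
    (hch : ∀ i j : Fin n, ((M ∩ U i ∩ U j).Nonempty ↔
        ((i : ℕ) ≤ (j : ℕ) + 1 ∧ (j : ℕ) ≤ (i : ℕ) + 1)))
    {D : Set P} (hD : D ⊆ M) (pD : IsPreconnected D) {x y : P} (hx : x ∈ D) (hy : y ∈ D)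
    {i k l : Fin n} (hxi : x ∈ U i) (hyk : y ∈ U k) (hil : i ≤ l) (hlk : l ≤ k) :
    (D ∩ U l).Nonempty := by
  by_contra hcon
  rw [Set.not_nonempty_iff_eq_empty] at hcon
  have hno : ∀ w ∈ D, w ∉ U l := by
    intro w hw hwl
    have : w ∈ D ∩ U l := ⟨hw, hwl⟩
    rw [hcon] at this
    exact this
  have hil' : i < l := lt_of_le_of_ne hil (by rintro rfl; exact hno x hx hxi)
  have hlk' : l < k := lt_of_le_of_ne hlk (by rintro rfl; exact hno y hy hyk)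
  obtain ⟨w, hwD, hw1, hw2⟩ := pD (⋃ m : {m : Fin n // m < l}, U m) (⋃ m : {m : Fin n // l < m}, U m)
    (isOpen_iUnion fun m => hU m) (isOpen_iUnion fun m => hU m) (by
      intro w hw
      obtain ⟨m, hm⟩ := Set.mem_iUnion.1 (hcov (hD hw))
      rcases lt_trichotomy m l with h | h | h
      · exact Or.inl (Set.mem_iUnion.2 ⟨⟨m, h⟩, hm⟩)
      · subst h; exact absurd hm (hno w hw)
      · exact Or.inr (Set.mem_iUnion.2 ⟨⟨m, h⟩, hm⟩))
    ⟨x, hx, Set.mem_iUnion.2 ⟨⟨i, hil'⟩, hxi⟩⟩ ⟨y, hy, Set.mem_iUnion.2 ⟨⟨k, hlk'⟩, hyk⟩⟩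
  obtain ⟨⟨m, hm⟩, hwm⟩ := Set.mem_iUnion.1 hw1
  obtain ⟨⟨m', hm'⟩, hwm'⟩ := Set.mem_iUnion.1 hw2
  have := ((hch m m').1 ⟨w, ⟨hD hwD, hwm⟩, hwm'⟩).2
  have h1 : (m : ℕ) < (l : ℕ) := hm
  have h2 : (l : ℕ) < (m' : ℕ) := hm'
  omega

theorem trd_pair {M : Set P} (hM : IsCompact M) {n : ℕ} {U : Fin n → Set P}
    (hU : ∀ i, IsOpen (U i)) (hcov : M ⊆ ⋃ i, U i)
    (hch : ∀ i j : Fin n, ((M ∩ U i ∩ U j).Nonempty ↔
        ((i : ℕ) ≤ (j : ℕ) + 1 ∧ (j : ℕ) ≤ (i : ℕ) + 1))) {d : ℝ}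
    (hdiam : ∀ i, Metric.diam (M ∩ U i) < d)
    {A B : Set P} (hA : A ⊆ M) (hB : B ⊆ M)
    (pA : IsPreconnected A) (pB : IsPreconnected B) {z a b : P} (zA : z ∈ A) (zB : z ∈ B)
    (ha : a ∈ A) (hb : b ∈ B) (hda : ∀ q ∈ B, d ≤ dist a q) (hdb : ∀ q ∈ A, d ≤ dist b q)
    {iz ia ib : Fin n} (hiz : z ∈ U iz) (hia : a ∈ U ia) (hib : b ∈ U ib) :
    ¬ (iz ≤ ia ∧ iz ≤ ib) ∧ ¬ (ia ≤ iz ∧ ib ≤ iz) := by
  have k1 : ¬ (B ∩ U ia).Nonempty := by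
    rintro ⟨q, hq, hqi⟩
    have h1 := Metric.dist_le_diam_of_mem (s := M ∩ U ia) (hM.isBounded.subset inter_subset_left)
      (x := a) (y := q) ⟨hA ha, hia⟩ ⟨hB hq, hqi⟩
    have h2 := hdiam ia
    have h3 := hda q hq
    linarith
  have k2 : ¬ (A ∩ U ib).Nonempty := by
    rintro ⟨q, hq, hqi⟩
    have h1 := Metric.dist_le_diam_of_mem (s := M ∩ U ib) (hM.isBounded.subset inter_subset_left)
      (x := b) (y := q) ⟨hB hb, hib⟩ ⟨hA hq, hqi⟩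
    have h2 := hdiam ib
    have h3 := hdb q hq
    linarith
  constructor
  · rintro ⟨h1, h2⟩
    rcases le_total ia ib with h | h
    · exact k1 (trd_between hU hcov hch hB pB zB hb hiz hib h1 h)
    · exact k2 (trd_between hU hcov hch hA pA zA ha hiz hia h2 h)
  · rintro ⟨h1, h2⟩
    rcases le_total ia ib with h | h
    · exact k2 (trd_between hU hcov hch hA pA ha zA hia hiz h h2)
    · exact k1 (trd_between hU hcov hch hB pB hb zB hib hiz h h1)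

theorem trd_dist {B : Set P} (cB : IsClosed B) {a : P} (ha : a ∉ B) :
    ∃ d : ℝ, 0 < d ∧ ∀ q ∈ B, d ≤ dist a q := by
  obtain ⟨d, hd, hb⟩ := Metric.isOpen_iff.1 cB.isOpen_compl a ha
  refine ⟨d, hd, fun q hq => ?_⟩
  by_contra hcon
  push Not at hcon
  exact hb (Metric.mem_ball'.2 hcon) hq

theorem triod {M : Set P} (hM : IsCompact M) (hch : Chainable M) {A B C : Set P}
    (hA : A ⊆ M) (hB : B ⊆ M) (hC : C ⊆ M)
    (cA : IsClosed A) (cB : IsClosed B) (cC : IsClosed C)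
    (pA : IsPreconnected A) (pB : IsPreconnected B) (pC : IsPreconnected C)
    {z : P} (zA : z ∈ A) (zB : z ∈ B) (zC : z ∈ C) :
    A ⊆ B ∪ C ∨ B ⊆ A ∪ C ∨ C ⊆ A ∪ B := by
  by_contra hcon
  push Not at hcon
  obtain ⟨n1, n2, n3⟩ := hcon
  obtain ⟨a, ha, ha'⟩ := Set.not_subset.1 n1
  obtain ⟨b, hb, hb'⟩ := Set.not_subset.1 n2
  obtain ⟨c, hc, hc'⟩ := Set.not_subset.1 n3
  rw [Set.mem_union, not_or] at ha' hb' hc'
  obtain ⟨d1, p1, q1⟩ := trd_dist cB ha'.1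
  obtain ⟨d2, p2, q2⟩ := trd_dist cC ha'.2
  obtain ⟨d3, p3, q3⟩ := trd_dist cA hb'.1
  obtain ⟨d4, p4, q4⟩ := trd_dist cC hb'.2
  obtain ⟨d5, p5, q5⟩ := trd_dist cA hc'.1
  obtain ⟨d6, p6, q6⟩ := trd_dist cB hc'.2
  obtain ⟨d, hd, g1, g2, g3, g4, g5, g6⟩ : ∃ d : ℝ, 0 < d ∧ d ≤ d1 ∧ d ≤ d2 ∧ d ≤ d3 ∧ d ≤ d4 ∧
      d ≤ d5 ∧ d ≤ d6 := by
    refine ⟨min d1 (min d2 (min d3 (min d4 (min d5 d6)))), by positivity, ?_, ?_, ?_, ?_, ?_, ?_⟩ <;>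
      simp
  obtain ⟨n, U, hU, hcov, hij, hdiam⟩ := hch d hd
  obtain ⟨iz, hiz⟩ := Set.mem_iUnion.1 (hcov (hA zA))
  obtain ⟨ia, hia⟩ := Set.mem_iUnion.1 (hcov (hA ha))
  obtain ⟨ib, hib⟩ := Set.mem_iUnion.1 (hcov (hB hb))
  obtain ⟨ic, hic⟩ := Set.mem_iUnion.1 (hcov (hC hc))
  obtain ⟨r1, r2⟩ := trd_pair hM hU hcov hij hdiam hA hB pA pB zA zB ha hb
    (fun q hq => g1.trans (q1 q hq)) (fun q hq => g3.trans (q3 q hq)) hiz hia hib
  obtain ⟨r3, r4⟩ := trd_pair hM hU hcov hij hdiam hA hC pA pC zA zC ha hc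
    (fun q hq => g2.trans (q2 q hq)) (fun q hq => g5.trans (q5 q hq)) hiz hia hic
  obtain ⟨r5, r6⟩ := trd_pair hM hU hcov hij hdiam hB hC pB pC zB zC hb hc
    (fun q hq => g4.trans (q4 q hq)) (fun q hq => g6.trans (q6 q hq)) hiz hib hic
  rcases le_total iz ia with h1 | h1
  · rcases le_total iz ib with h2 | h2
    · exact r1 ⟨h1, h2⟩
    · rcases le_total iz ic with h3 | h3
      · exact r3 ⟨h1, h3⟩
      · exact r6 ⟨h2, h3⟩
  · rcases le_total iz ib with h2 | h2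
    · rcases le_total iz ic with h3 | h3
      · exact r5 ⟨h2, h3⟩
      · exact r4 ⟨h1, h3⟩
    · exact r2 ⟨h1, h2⟩

theorem Arm.no_arc {J : Set P} {r : ℝ → P} (h : Arm J r) {p q : P} (hp : p ∈ J) (hq : q ∈ J)
    (hpq : p ≠ q) {g : ℝ → P} {a b N : ℝ} (hg : ContinuousOn g (Icc a b))
    (hgi : InjOn g (Icc a b)) (hN : 0 ≤ N) (hsub : ∀ t, N ≤ t → r t ∈ g '' Icc a b) : False := by
  -- the limit points lie on the arc
  have hC : IsClosed (g '' Icc a b) := (isCompact_Icc.image_of_continuousOn hg).isClosed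
  have hmem : ∀ x ∈ J, x ∈ g '' Icc a b := by
    intro x hx
    by_contra hxC
    obtain ⟨t, ht, -, htO⟩ := h.clus x hx _ hC.isOpen_compl hxC N
    exact htO (hsub t ht)
  have key : ∀ x ∈ J, ∀ y ∈ J, ∀ u ∈ Icc a b, ∀ v ∈ Icc a b, g u = x → g v = y → u < v →
      False := by
    intro x hx y hy u hu v hv hux hvy huv
    obtain ⟨w, huw, hwv⟩ := exists_between huv
    have hw : w ∈ Icc a b := ⟨hu.1.trans huw.le, hwv.le.trans hv.2⟩
    have hF1 : IsClosed (g '' Icc a w) :=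
      (isCompact_Icc.image_of_continuousOn (hg.mono (Icc_subset_Icc_right hw.2))).isClosed
    have hF2 : IsClosed (g '' Icc w b) :=
      (isCompact_Icc.image_of_continuousOn (hg.mono (Icc_subset_Icc_left hw.1))).isClosed
    have hcov : ∀ t, N ≤ t → r t ∈ g '' Icc a w ∨ r t ∈ g '' Icc w b := by
      intro t ht
      obtain ⟨s, hs, hst⟩ := hsub t ht
      rcases le_total s w with h1 | h1
      · exact Or.inl ⟨s, ⟨hs.1, h1⟩, hst⟩
      · exact Or.inr ⟨s, ⟨h1, hs.2⟩, hst⟩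
    have hint : ∀ z, z ∈ g '' Icc a w → z ∈ g '' Icc w b → z = g w := by
      rintro z ⟨s, hs, rfl⟩ ⟨s', hs', hss'⟩
      have h1 : s' = s := hgi ⟨hw.1.trans hs'.1, hs'.2⟩ ⟨hs.1, hs.2.trans hw.2⟩ hss'
      have h2 : s = w := le_antisymm hs.2 (h1 ▸ hs'.1)
      rw [h2]
    have hxO : x ∈ (g '' Icc w b)ᶜ := by
      rintro ⟨s, hs, hsx⟩
      have h1 : s = u := hgi ⟨hw.1.trans hs.1, hs.2⟩ hu (hsx.trans hux.symm)
      have h2 := hs.1
      rw [h1] at h2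
      exact absurd huw (not_lt.2 h2)
    have hyO : y ∈ (g '' Icc a w)ᶜ := by
      rintro ⟨s, hs, hsy⟩
      have h1 : s = v := hgi ⟨hs.1, hs.2.trans hw.2⟩ hv (hsy.trans hvy.symm)
      have h2 := hs.2
      rw [h1] at h2
      exact absurd hwv (not_lt.2 h2)
    obtain ⟨t1, ht1N, -, ht1⟩ := h.clus x hx _ hF2.isOpen_compl hxO N
    obtain ⟨t2, ht2N, -, ht2⟩ := h.clus y hy _ hF1.isOpen_compl hyO t1
    obtain ⟨t3, ht3N, -, ht3⟩ := h.clus x hx _ hF2.isOpen_compl hxO t2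
    have ht1' : r t1 ∈ g '' Icc a w := (hcov t1 ht1N).resolve_right ht1
    have ht2' : r t2 ∈ g '' Icc w b := (hcov t2 (ht1N.trans ht2N)).resolve_left ht2
    have ht3' : r t3 ∈ g '' Icc a w :=
      (hcov t3 (ht1N.trans (ht2N.trans ht3N))).resolve_right ht3
    have hpre : ∀ c d, N ≤ c → ∀ s1 ∈ Icc c d, ∀ s2 ∈ Icc c d, r s1 ∈ g '' Icc a w →
        r s2 ∈ g '' Icc w b → ∃ s ∈ Icc c d, r s = g w := by
      intro c d hc s1 hs1 s2 hs2 h1 h2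
      have hp := (isPreconnected_closed_iff.1 (isPreconnected_Icc (a := c) (b := d)))
        (r ⁻¹' (g '' Icc a w)) (r ⁻¹' (g '' Icc w b)) (hF1.preimage h.cont)
        (hF2.preimage h.cont) (fun s hs => hcov s (hc.trans hs.1)) ⟨s1, hs1, h1⟩ ⟨s2, hs2, h2⟩
      obtain ⟨s, hs, hsa, hsb⟩ := hp
      exact ⟨s, hs, hint _ hsa hsb⟩
    obtain ⟨s1, hs1, hs1w⟩ := hpre t1 t2 ht1N t1 (left_mem_Icc.2 ht2N) t2 (right_mem_Icc.2 ht2N)
      ht1' ht2'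
    obtain ⟨s2, hs2, hs2w⟩ := hpre t2 t3 (ht1N.trans ht2N) t3 (right_mem_Icc.2 ht3N) t2
      (left_mem_Icc.2 ht3N) ht3' ht2'
    have h12 : s1 = s2 := h.inj (hN.trans (ht1N.trans hs1.1))
      (hN.trans (ht1N.trans (ht2N.trans hs2.1))) (hs1w.trans hs2w.symm)
    have h2 : s1 = t2 := le_antisymm hs1.2 (h12 ▸ hs2.1)
    apply ht2
    rw [← h2, hs1w]
    exact ⟨w, ⟨hw.1, le_rfl⟩, rfl⟩
  obtain ⟨u, hu, hup⟩ := hmem p hp
  obtain ⟨v, hv, hvq⟩ := hmem q hq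
  rcases lt_trichotomy u v with h1 | h1 | h1
  · exact key p hp q hq u hu v hv hup hvq h1
  · exact hpq (by rw [← hup, ← hvq, h1])
  · exact key q hq p hp v hv u hu hvq hup h1

theorem arm_star {J : Set P} {r r2 : ℝ → P} (hJc : IsCompact J) (h1 : Arm J r) (h2 : Arm J r2)
    (hdis : ∀ s t, 0 ≤ s → 0 ≤ t → r s ≠ r2 t) {e1 e2 : P} (he1 : e1 ∈ J) (he2 : e2 ∈ J)
    (hne : e1 ≠ e2) {c : ℝ → P} {a b : ℝ} (hab : a ≤ b) (hc : ContinuousOn c (Icc a b))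
    (hK : ∀ s ∈ Icc a b, c s ∈ J ∨ c s ∈ r '' Ici 0 ∨ c s ∈ r2 '' Ici 0)
    (ha : c a ∈ J) (hb : c b ∈ r '' Ici 0) : False := by
  have hcl2 : IsClosed (J ∪ r2 '' Ici 0) := (h2.isCompact_tail hJc le_rfl).isClosed
  have hcl1 : IsClosed (J ∪ r '' Ici 0) := (h1.isCompact_tail hJc le_rfl).isClosed
  have hAc : IsClosed (Icc a b ∩ c ⁻¹' (J ∪ r2 '' Ici 0)) :=
    hc.preimage_isClosed_of_isClosed isClosed_Icc hcl2
  have hAcomp : IsCompact (Icc a b ∩ c ⁻¹' (J ∪ r2 '' Ici 0)) :=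
    isCompact_Icc.of_isClosed_subset hAc inter_subset_left
  have hAne : (Icc a b ∩ c ⁻¹' (J ∪ r2 '' Ici 0)).Nonempty :=
    ⟨a, ⟨le_rfl, hab⟩, Or.inl ha⟩
  obtain ⟨T, hTdef⟩ : ∃ T, T = sSup (Icc a b ∩ c ⁻¹' (J ∪ r2 '' Ici 0)) := ⟨_, rfl⟩
  have hTA : T ∈ Icc a b ∩ c ⁻¹' (J ∪ r2 '' Ici 0) := by
    rw [hTdef]; exact hAcomp.sSup_mem hAne
  have hTI : T ∈ Icc a b := hTA.1
  have hTb : T < b := by
    rcases lt_or_eq_of_le hTI.2 with h | h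
    · exact h
    · exfalso
      have h3 := hTA.2
      rw [h] at h3
      obtain ⟨x, hx, hxb⟩ := hb
      rcases h3 with h3 | ⟨y, hy, hyb⟩
      · rw [← hxb] at h3
        exact h1.disj x hx h3
      · exact hdis x y hx hy (by rw [hxb, hyb])
  have hafter : ∀ s ∈ Ioc T b, c s ∈ r '' Ici 0 := by
    intro s hs
    have hsI : s ∈ Icc a b := ⟨hTI.1.trans hs.1.le, hs.2⟩
    have hsA : ¬ s ∈ Icc a b ∩ c ⁻¹' (J ∪ r2 '' Ici 0) := by
      intro hsA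
      have := le_csSup hAcomp.bddAbove hsA
      rw [← hTdef] at this
      exact absurd this (not_le.2 hs.1)
    rcases hK s hsI with h | h | h
    · exact absurd ⟨hsI, Or.inl h⟩ hsA
    · exact h
    · exact absurd ⟨hsI, Or.inr h⟩ hsA
  have hcT : ContinuousOn c (Icc T b) := hc.mono (Icc_subset_Icc_left hTI.1)
  have hTJ : c T ∈ J := by
    have hBc : IsClosed (Icc T b ∩ c ⁻¹' (J ∪ r '' Ici 0)) :=
      hcT.preimage_isClosed_of_isClosed isClosed_Icc hcl1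
    have hsub : Ioc T b ⊆ Icc T b ∩ c ⁻¹' (J ∪ r '' Ici 0) :=
      fun s hs => ⟨Ioc_subset_Icc_self hs, Or.inr (hafter s hs)⟩
    have hsub2 := closure_minimal hsub hBc
    rw [closure_Ioc hTb.ne] at hsub2
    have hT1 := (hsub2 (left_mem_Icc.2 hTb.le)).2
    rcases hT1 with h | ⟨x, hx, hxT⟩
    · exact h
    · rcases hTA.2 with h | ⟨y, hy, hyT⟩
      · exact h
      · exact absurd (by rw [hxT, hyT]) (hdis x y hx hy)
  have claim : ∀ s ∈ Ioc T b, ∀ x, 0 ≤ x → c s = r x → ∀ y, x < y → r y ∈ c '' Icc T s := by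
    intro s hs x hx hsx y hxy
    by_contra hny
    have hpc : IsPreconnected (c '' Icc T s) :=
      isPreconnected_Icc.image c (hcT.mono (Icc_subset_Icc_right hs.2))
    have hF1 : IsClosed (r '' Icc 0 y) := (isCompact_Icc.image h1.cont).isClosed
    have hy0 : 0 ≤ y := hx.trans hxy.le
    have hF2 : IsClosed ((J ∪ r2 '' Ici 0) ∪ (J ∪ r '' Ici y)) :=
      hcl2.union (h1.isCompact_tail hJc hy0).isClosed
    obtain ⟨z, hzS, hz1, hz2⟩ := isPreconnected_closed_iff.1 hpc _ _ hF1 hF2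
      (by
        rintro _ ⟨t, ht, rfl⟩
        have htI : t ∈ Icc a b := ⟨hTI.1.trans ht.1, ht.2.trans hs.2⟩
        rcases hK t htI with h | ⟨v, hv, hvt⟩ | h
        · exact Or.inr (Or.inl (Or.inl h))
        · rcases le_total v y with hvy | hvy
          · exact Or.inl ⟨v, ⟨hv, hvy⟩, hvt⟩
          · exact Or.inr (Or.inr (Or.inr ⟨v, hvy, hvt⟩))
        · exact Or.inr (Or.inl (Or.inr h)))
      ⟨c s, ⟨s, right_mem_Icc.2 hs.1.le, rfl⟩, ⟨x, ⟨hx, hxy.le⟩, hsx.symm⟩⟩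
      ⟨c T, ⟨T, left_mem_Icc.2 hs.1.le, rfl⟩, Or.inl (Or.inl hTJ)⟩
    obtain ⟨u, hu, huz⟩ := hz1
    rcases hz2 with (h | ⟨v, hv, hvz⟩) | (h | ⟨v, hv, hvz⟩)
    · rw [← huz] at h
      exact h1.disj u hu.1 h
    · exact hdis u v hu.1 hv (by rw [huz, hvz])
    · rw [← huz] at h
      exact h1.disj u hu.1 h
    · have hv' : y ≤ v := hv
      have huv : u = v := h1.inj hu.1 (show v ∈ Ici (0:ℝ) from hy0.trans hv') (by rw [huz, hvz])
      have huy : u = y := le_antisymm hu.2 (by rw [huv]; exact hv')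
      apply hny
      rw [← huy, huz]
      exact hzS
  obtain ⟨e, heJ, hene⟩ : ∃ e ∈ J, e ≠ c T := by
    by_cases h : e1 = c T
    · exact ⟨e2, he2, fun h' => hne (by rw [h, h'])⟩
    · exact ⟨e1, he1, h⟩
  have hd : 0 < dist e (c T) := dist_pos.2 hene
  have hcont : ContinuousWithinAt c (Icc T b) T := hcT T (left_mem_Icc.2 hTb.le)
  rw [Metric.continuousWithinAt_iff] at hcont
  obtain ⟨δ, hδ, hδ2⟩ := hcont (dist e (c T) / 3) (by linarith)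
  obtain ⟨s, hsdef⟩ : ∃ s, s = min b (T + δ / 2) := ⟨_, rfl⟩
  have hsT : T < s := by
    rw [hsdef]; exact lt_min hTb (by linarith)
  have hsb : s ≤ b := by
    rw [hsdef]; exact min_le_left _ _
  have hsδ : s ≤ T + δ / 2 := by
    rw [hsdef]; exact min_le_right _ _
  obtain ⟨x, hx, hxs⟩ := hafter s ⟨hsT, hsb⟩
  obtain ⟨y, hy1, hy2, hy3⟩ := h1.clus e heJ (Metric.ball e (dist e (c T) / 3))
    Metric.isOpen_ball (Metric.mem_ball_self (by linarith)) (x + 1)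
  obtain ⟨s', hs', hs'y⟩ := claim s ⟨hsT, hsb⟩ x hx hxs.symm y (by linarith)
  have h5 := hδ2 (show s' ∈ Icc T b from ⟨hs'.1, hs'.2.trans hsb⟩) (by
    rw [Real.dist_eq, abs_of_nonneg (by linarith [hs'.1])]
    linarith [hs'.2])
  rw [hs'y] at h5
  rw [Metric.mem_ball, dist_comm] at hy3
  have h6 := dist_triangle e (r y) (c T)
  linarith

theorem arm_star' {J : Set P} {r r2 : ℝ → P} (hJc : IsCompact J) (h1 : Arm J r) (h2 : Arm J r2)
    (hdis : ∀ s t, 0 ≤ s → 0 ≤ t → r s ≠ r2 t) {e1 e2 : P} (he1 : e1 ∈ J) (he2 : e2 ∈ J)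
    (hne : e1 ≠ e2) {c : ℝ → P} {a b : ℝ} (hab : a ≤ b) (hc : ContinuousOn c (Icc a b))
    (hK : ∀ s ∈ Icc a b, c s ∈ J ∨ c s ∈ r '' Ici 0 ∨ c s ∈ r2 '' Ici 0)
    (hb : c b ∈ J) (ha : c a ∈ r '' Ici 0) : False := by
  have hmaps : ∀ s ∈ Icc a b, a + b - s ∈ Icc a b := by
    intro s hs
    constructor <;> linarith [hs.1, hs.2]
  refine arm_star hJc h1 h2 hdis he1 he2 hne (c := fun s => c (a + b - s)) hab ?_ ?_ ?_ ?_
  · refine hc.comp (by fun_prop) ?_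
    intro s hs
    exact hmaps s hs
  · intro s hs
    exact hK _ (hmaps s hs)
  · show c (a + b - a) ∈ J
    rw [show a + b - a = b by ring]; exact hb
  · show c (a + b - b) ∈ r '' Ici 0
    rw [show a + b - b = a by ring]; exact ha

theorem Dbl.path_stay {j rp rm : ℝ → P} (D : Dbl j rp rm) {c : ℝ → P} {a b : ℝ}
    (hc : ContinuousOn c (Icc a b)) (hK : ∀ s ∈ Icc a b, c s ∈ KK j rp rm) {s0 : ℝ}
    (hs0 : s0 ∈ Icc a b) (hJ : c s0 ∈ j '' Icc 0 10) :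
    ∀ s ∈ Icc a b, c s ∈ j '' Icc 0 10 := by
  have hJc : IsCompact (j '' Icc (0:ℝ) 10) := isCompact_Icc.image D.jc
  have h0 : (0:ℝ) ∈ Icc (0:ℝ) 10 := ⟨le_rfl, by norm_num⟩
  have h10 : (10:ℝ) ∈ Icc (0:ℝ) 10 := ⟨by norm_num, le_rfl⟩
  have he1 : j 0 ∈ j '' Icc (0:ℝ) 10 := ⟨0, h0, rfl⟩
  have he2 : j 10 ∈ j '' Icc (0:ℝ) 10 := ⟨10, h10, rfl⟩
  have hne : j 0 ≠ j 10 := by
    intro h
    have := D.ji h0 h10 h
    norm_num at this
  have hdis' : ∀ s t, 0 ≤ s → 0 ≤ t → rm s ≠ rp t := fun s t hs ht h =>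
    D.dis t s ht hs h.symm
  have hKp : ∀ s ∈ Icc a b, c s ∈ j '' Icc 0 10 ∨ c s ∈ rp '' Ici 0 ∨ c s ∈ rm '' Ici 0 := by
    intro s hs
    rcases hK s hs with (h | h) | h
    · exact Or.inl h
    · exact Or.inr (Or.inl h)
    · exact Or.inr (Or.inr h)
  have hKm : ∀ s ∈ Icc a b, c s ∈ j '' Icc 0 10 ∨ c s ∈ rm '' Ici 0 ∨ c s ∈ rp '' Ici 0 := by
    intro s hs
    rcases hK s hs with (h | h) | h
    · exact Or.inl h
    · exact Or.inr (Or.inr h)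
    · exact Or.inr (Or.inl h)
  intro s hs
  rcases hKp s hs with h | h | h
  · exact h
  · exfalso
    rcases le_total s0 s with hle | hle
    · have hsub : Icc s0 s ⊆ Icc a b := Icc_subset_Icc hs0.1 hs.2
      exact arm_star hJc D.p D.m D.dis he1 he2 hne hle (hc.mono hsub)
        (fun t ht => hKp t (hsub ht)) hJ h
    · have hsub : Icc s s0 ⊆ Icc a b := Icc_subset_Icc hs.1 hs0.2
      exact arm_star' hJc D.p D.m D.dis he1 he2 hne hle (hc.mono hsub)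
        (fun t ht => hKp t (hsub ht)) hJ h
  · exfalso
    rcases le_total s0 s with hle | hle
    · have hsub : Icc s0 s ⊆ Icc a b := Icc_subset_Icc hs0.1 hs.2
      exact arm_star hJc D.m D.p hdis' he1 he2 hne hle (hc.mono hsub)
        (fun t ht => hKm t (hsub ht)) hJ h
    · have hsub : Icc s s0 ⊆ Icc a b := Icc_subset_Icc hs.1 hs0.2
      exact arm_star' hJc D.m D.p hdis' he1 he2 hne hle (hc.mono hsub)
        (fun t ht => hKm t (hsub ht)) hJ h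

theorem Dbl.no_far {j rp rm : ℝ → P} (D : Dbl j rp rm) {J1 : Set P} {r : ℝ → P}
    (hr : Arm J1 r) (hJ1 : IsCompact J1) {p q : P} (hp : p ∈ J1) (hq : q ∈ J1) (hpq : p ≠ q)
    (hsub : r '' Ici 0 ⊆ KK j rp rm) (hd : Disjoint J1 (j '' Icc 0 10)) : False := by
  set J : Set P := j '' Icc 0 10 with hJ
  have hJc : IsCompact J := isCompact_Icc.image D.jc
  have hJ1c : IsClosed J1 := hJ1.isClosed
  have hJsub : J ⊆ J1ᶜ := fun x hx hx1 => (Set.disjoint_left.mp hd) hx1 hx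
  obtain ⟨Np, hNp0, hNp⟩ := D.p.lim J1ᶜ hJ1c.isOpen_compl hJsub
  obtain ⟨Nm, hNm0, hNm⟩ := D.m.lim J1ᶜ hJ1c.isOpen_compl hJsub
  set N := max Np Nm with hN
  have hN0 : 0 ≤ N := le_trans hNp0 (le_max_left _ _)
  set F : Set P := (J ∪ rp '' Ici N) ∪ (J ∪ rm '' Ici N) with hF
  have hFc : IsClosed F :=
    ((Arm.isCompact_tail hJc D.p hN0).union (Arm.isCompact_tail hJc D.m hN0)).isClosed
  have hFd : J1 ⊆ Fᶜ := by
    intro x hx hxF
    rcases hxF with (h | ⟨t, ht, rfl⟩) | (h | ⟨t, ht, rfl⟩)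
    · exact (Set.disjoint_left.mp hd) hx h
    · exact hNp t (le_trans (le_max_left _ _) ht) hx
    · exact (Set.disjoint_left.mp hd) hx h
    · exact hNm t (le_trans (le_max_right _ _) ht) hx
  obtain ⟨N1, hN10, hN1⟩ := hr.lim Fᶜ hFc.isOpen_compl hFd
  set A : Set P := rp '' Icc 0 N with hA
  set B : Set P := rm '' Icc 0 N with hB
  have hAc : IsClosed A := (isCompact_Icc.image D.p.cont).isClosed
  have hBc : IsClosed B := (isCompact_Icc.image D.m.cont).isClosed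
  have hAB : ∀ x, x ∈ A → x ∈ B → False := by
    rintro x ⟨s, hs, rfl⟩ ⟨t, ht, h⟩
    exact D.dis s t hs.1 ht.1 h.symm
  have hcov : ∀ t, N1 ≤ t → r t ∈ A ∪ B := by
    intro t ht
    have h1 : r t ∈ KK j rp rm := hsub ⟨t, le_trans hN10 ht, rfl⟩
    have h2 : r t ∉ F := hN1 t ht
    rcases h1 with (h | ⟨s, hs, h⟩) | ⟨s, hs, h⟩
    · exact absurd (Or.inl (Or.inl h)) h2
    · left
      refine ⟨s, ⟨hs, ?_⟩, h⟩
      by_contra hc
      push Not at hc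
      exact h2 (Or.inl (Or.inr ⟨s, hc.le, h⟩))
    · right
      refine ⟨s, ⟨hs, ?_⟩, h⟩
      by_contra hc
      push Not at hc
      exact h2 (Or.inr (Or.inr ⟨s, hc.le, h⟩))
  have hpre : IsPreconnected (r '' Ici N1) := isPreconnected_Ici.image _ hr.cont.continuousOn
  have hdich : (∀ t, N1 ≤ t → r t ∈ A) ∨ (∀ t, N1 ≤ t → r t ∈ B) := by
    by_contra hc
    push Not at hc
    obtain ⟨⟨s, hs, hsA⟩, ⟨t, ht, htB⟩⟩ := hc
    have hsB : r s ∈ B := (hcov s hs).resolve_left hsA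
    have htA : r t ∈ A := (hcov t ht).resolve_right htB
    have h := isPreconnected_closed_iff.mp hpre A B hAc hBc (by
      rintro x ⟨u, hu, rfl⟩
      exact hcov u hu) ⟨r t, ⟨t, ht, rfl⟩, htA⟩ ⟨r s, ⟨s, hs, rfl⟩, hsB⟩
    obtain ⟨x, _, hxA, hxB⟩ := h
    exact hAB x hxA hxB
  rcases hdich with h | h
  · exact Arm.no_arc hr hp hq hpq (g := rp) (a := 0) (b := N) D.p.cont.continuousOn
      (D.p.inj.mono Icc_subset_Ici_self) hN10 h
  · exact Arm.no_arc hr hp hq hpq (g := rm) (a := 0) (b := N) D.m.cont.continuousOn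
      (D.m.inj.mono Icc_subset_Ici_self) hN10 h

theorem Arm.reparam {J : Set P} (hJ : IsCompact J) {r1 r2 : ℝ → P} (h1 : Arm J r1)
    (h2 : Arm J r2) (hsub : r1 '' Ici 0 ⊆ r2 '' Ici 0) :
    ∃ τ : ℝ → ℝ, ContinuousOn τ (Ici 0) ∧ StrictMonoOn τ (Ici 0) ∧
      (∀ B : ℝ, ∃ s, 0 ≤ s ∧ B ≤ τ s) ∧ ∀ s, 0 ≤ s → 0 ≤ τ s ∧ r1 s = r2 (τ s) := by
  have hex : ∀ s : ℝ, ∃ x : ℝ, 0 ≤ s → 0 ≤ x ∧ r1 s = r2 x := by
    intro s
    by_cases hs : 0 ≤ s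
    · obtain ⟨x, hx, hxe⟩ := hsub ⟨s, hs, rfl⟩
      exact ⟨x, fun _ => ⟨hx, hxe.symm⟩⟩
    · exact ⟨0, fun h => absurd h hs⟩
  choose τ hτ using hex
  have hcont : ContinuousOn τ (Ici 0) := by
    intro s hs
    obtain ⟨hx0, hxe⟩ := hτ s hs
    intro V hV
    obtain ⟨V', hV'V, hV'o, hxV'⟩ := mem_nhds_iff.mp hV
    have hF : IsCompact (J ∪ r2 '' Ici (τ s + 1)) := Arm.isCompact_tail hJ h2 (by linarith)
    have hK : IsCompact (r2 '' (Icc 0 (τ s + 1) \ V')) :=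
      (isCompact_Icc.diff hV'o).image h2.cont
    have hC : IsClosed ((J ∪ r2 '' Ici (τ s + 1)) ∪ r2 '' (Icc 0 (τ s + 1) \ V')) :=
      (hF.union hK).isClosed
    have hns : r1 s ∉ ((J ∪ r2 '' Ici (τ s + 1)) ∪ r2 '' (Icc 0 (τ s + 1) \ V')) := by
      rw [hxe]
      rintro ((h | ⟨y, hy, hye⟩) | ⟨y, hy, hye⟩)
      · exact h2.disj _ hx0 h
      · have hy' : τ s + 1 ≤ y := hy
        have := h2.inj (show y ∈ Ici (0:ℝ) from by show (0:ℝ) ≤ y; linarith) hx0 hye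
        linarith
      · have := h2.inj (show y ∈ Ici (0:ℝ) from hy.1.1) hx0 hye
        rw [this] at hy
        exact hy.2 hxV'
    have hnb : ∀ᶠ s' in 𝓝 s, r1 s' ∉ ((J ∪ r2 '' Ici (τ s + 1)) ∪ r2 '' (Icc 0 (τ s + 1) \ V')) :=
      h1.cont.continuousAt.eventually (hC.isOpen_compl.mem_nhds hns)
    have hgoal : ∀ᶠ s' in 𝓝[Ici 0] s, τ s' ∈ V := by
      filter_upwards [nhdsWithin_le_nhds hnb, self_mem_nhdsWithin] with s' hs' hs'0
      obtain ⟨hy0, hye⟩ := hτ s' hs'0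
      apply hV'V
      by_contra hnV
      apply hs'
      by_cases hlt : τ s + 1 ≤ τ s'
      · exact Or.inl (Or.inr ⟨τ s', hlt, hye.symm⟩)
      · exact Or.inr ⟨τ s', ⟨⟨hy0, by linarith⟩, hnV⟩, hye.symm⟩
    exact hgoal
  have hinj : ∀ a, 0 ≤ a → ∀ b, 0 ≤ b → τ a = τ b → a = b := by
    intro a ha b hb hab
    apply h1.inj ha hb
    rw [(hτ a ha).2, (hτ b hb).2, hab]
  have hunb : ∀ B : ℝ, ∃ N : ℝ, 0 ≤ N ∧ ∀ s, N ≤ s → B < τ s := by
    intro B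
    have hK : IsCompact (r2 '' Icc 0 (max B 0)) := isCompact_Icc.image h2.cont
    obtain ⟨N, hN0, hN⟩ := h1.lim (r2 '' Icc 0 (max B 0))ᶜ hK.isClosed.isOpen_compl (by
      rintro p hp ⟨y, hy, hye⟩
      rw [← hye] at hp
      exact h2.disj y hy.1 hp)
    refine ⟨N, hN0, fun s hs => ?_⟩
    obtain ⟨hy0, hye⟩ := hτ s (by linarith)
    by_contra hle
    push Not at hle
    exact hN s hs ⟨τ s, ⟨hy0, hle.trans (le_max_left _ _)⟩, hye.symm⟩
  refine ⟨τ, hcont, ?_, ?_, hτ⟩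
  · intro a ha b hb hab
    by_contra hle
    push Not at hle
    obtain ⟨N, hN0, hN⟩ := hunb (τ a)
    have ha' : (0:ℝ) ≤ a := ha
    have hb' : (0:ℝ) ≤ b := hb
    have hc := hN (max b N) (le_max_right _ _)
    have hbc : b ≤ max b N := le_max_left _ _
    obtain ⟨d, hd, hde⟩ := intermediate_value_Icc hbc
      (hcont.mono (fun y hy => (by show (0:ℝ) ≤ y; exact hb'.trans hy.1))) ⟨hle, hc.le⟩
    have := hinj d (hb'.trans hd.1) a ha' hde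
    have := hd.1
    linarith
  · intro B
    obtain ⟨N, hN0, hN⟩ := hunb B
    exact ⟨N, hN0, (hN N le_rfl).le⟩

end Pool.Agent.Helper302.Univ
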